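import Pool.Agent.Y531.Prod

/-!
# Quotients and roots of products, and algebraic functions of few arguments
-/

set_option autoImplicit false
set_option linter.unusedSectionVars false
set_option maxHeartbeats 1000000

namespace Pool.Agent.Y531.Hit

open Finset MvPolynomial Pool.Agent.W942 Pool.Agent.Y531

variable {K : Type*} [Field K] {ι U V : Type*} [Fintype ι] [DecidableEq ι]

/-- Logarithmic derivatives are unique. -/
theorem LD.unique {i : ι} {f L M : SF ι (U → V → K)} {c : K} (hc : c ≠ 0)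
    (hf : f ∅ = algebraMap K (U → V → K) c) (hL : LD i f L) (hM : LD i f M) : L = M := by
  have h1 : IsUnit (SF.sg i f) := by
    apply SF.isUnit_of_apply_empty
    rw [SF.sg_apply_of_notMem (Finset.notMem_empty i), hf]
    exact (isUnit_iff_ne_zero.2 hc).map _
  rw [LD] at hL hM
  rw [hL] at hM
  exact h1.mul_right_cancel hM

/-- **Quotients and roots of long products of powers.** -/
theorem quot_good [CharZero K] {Φ : Frame ι U V} (ht : Triv K Φ) {T T' T'' : ℕ} {z z' X ϑ : ℝ}
    (hz0 : 0 ≤ z) (hz1 : z ≤ 1) (hz0' : 0 ≤ z') (hz1' : z' ≤ 1) (hϑ : 0 ≤ ϑ) (hX : ϑ ≤ X)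
    (hs : Scale K Φ T z) (hs' : Scale K Φ T' z') (hT' : z ^ T' ≤ ϑ) (hT'' : z' ^ T'' ≤ ϑ)
    {J : Type*} (s : Finset J) (f : J → SF ι (U → V → K)) (e e' : J → ℕ)
    (e₀ : ℕ) (he₀ : e₀ ≠ 0) (G : SF ι (U → V → K))
    (hG : G ^ e₀ * ∏ j ∈ s, f j ^ e' j = ∏ j ∈ s, f j ^ e j)
    (hf : ∀ j ∈ s, Good Φ T X (f j))
    (hf0 : ∀ j ∈ s, ∃ c : K, c ≠ 0 ∧ f j ∅ = algebraMap K (U → V → K) c)
    {c₀ : K} (hc₀ : c₀ ≠ 0) (hG0 : G ∅ = algebraMap K (U → V → K) c₀) :
    Good Φ T'' (((s.card : ℝ) + 1) * 2 ^ (2 * Fintype.card ι ^ 2) * X) G := by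
  classical
  have hX0 : 0 ≤ X := hϑ.trans hX
  have hL : ∀ (i : ι) (j : J), ∃ L, j ∈ s → LD i (f j) L := by
    intro i j
    by_cases hj : j ∈ s
    · obtain ⟨c, hc, hc'⟩ := hf0 j hj
      obtain ⟨L, hL⟩ := exists_LD i (f j) hc hc'
      exact ⟨L, fun _ => hL⟩
    · exact ⟨0, fun h => absurd h hj⟩
  choose L hL using hL
  set X' : ℝ := ((s.card : ℝ) + 1) * 2 ^ (Fintype.card ι ^ 2) * X with hX'
  have hs0 : (0:ℝ) ≤ s.card := Nat.cast_nonneg _
  have hs1 : (1:ℝ) ≤ (s.card : ℝ) + 1 := by linarith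
  have hXX' : X ≤ X' := by
    refine le_mul_of_one_le_left hX0 ?_
    exact one_le_mul_of_one_le_of_one_le hs1 (one_le_pow₀ (by norm_num))
  have he₀' : (e₀ : K) ≠ 0 := Nat.cast_ne_zero.2 he₀
  set κ : J → K := fun j => (e₀ : K)⁻¹ * ((e j : K) - (e' j : K)) with hκ
  have hprod0 : ∃ c : K, c ≠ 0 ∧ (G ^ e₀ * ∏ j ∈ s, f j ^ e' j : SF ι (U → V → K)) ∅ =
      algebraMap K (U → V → K) c := by
    have hf0' : ∀ j, ∃ c : K, j ∈ s → c ≠ 0 ∧ f j ∅ = algebraMap K (U → V → K) c := by
      intro j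
      by_cases hj : j ∈ s
      · obtain ⟨c, hc⟩ := hf0 j hj
        exact ⟨c, fun _ => hc⟩
      · exact ⟨0, fun h => absurd h hj⟩
    choose c hc using hf0'
    refine ⟨c₀ ^ e₀ * ∏ j ∈ s, c j ^ e' j, mul_ne_zero (pow_ne_zero _ hc₀)
      (Finset.prod_ne_zero_iff.2 fun j hj => pow_ne_zero _ (hc j hj).1), ?_⟩
    show SF.ev0 (G ^ e₀ * ∏ j ∈ s, f j ^ e' j) = _
    rw [map_mul, map_pow, map_prod, SF.ev0_apply, hG0, map_mul, map_pow, map_prod]
    congr 1
    refine Finset.prod_congr rfl fun j hj => ?_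
    rw [map_pow, SF.ev0_apply, (hc j hj).2, map_pow]
  obtain ⟨cp, hcp, hcp'⟩ := hprod0
  have h1 : ∀ i, LD i G (∑ j ∈ s, κ j • L i j) := by
    intro i
    obtain ⟨LG, hLG⟩ := exists_LD i G hc₀ hG0
    have h2 : LD i (G ^ e₀ * ∏ j ∈ s, f j ^ e' j)
        ((e₀ : K) • LG + ∑ j ∈ s, (e' j : K) • L i j) :=
      (hLG.pow e₀).mul (LD.prod s fun j hj => (hL i j hj).pow (e' j))
    have h3 : LD i (G ^ e₀ * ∏ j ∈ s, f j ^ e' j) (∑ j ∈ s, (e j : K) • L i j) := by
      rw [hG]
      exact LD.prod s fun j hj => (hL i j hj).pow (e j)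
    have h4 := LD.unique hcp hcp' h2 h3
    have h5 : LG = ∑ j ∈ s, κ j • L i j := by
      have h6 : (e₀ : K) • LG = ∑ j ∈ s, ((e j : K) - (e' j : K)) • L i j := by
        rw [eq_sub_of_add_eq h4, ← Finset.sum_sub_distrib]
        refine Finset.sum_congr rfl fun j _ => ?_
        rw [sub_smul]
      rw [← one_smul K LG, ← inv_mul_cancel₀ he₀', mul_smul, h6, Finset.smul_sum]
      refine Finset.sum_congr rfl fun j _ => ?_
      rw [smul_smul]
    rw [← h5]
    exact hLG
  have h2 : ∀ i B, i ∉ B → GoodAt Φ T' X' (insert i B) ((∑ j ∈ s, κ j • L i j) B) := by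
    intro i B hi
    rw [SF.sum_apply]
    have h3 : Bd Φ z X (∑ _j ∈ s, (2 ^ (Fintype.card ι ^ 2) : ℝ)) (insert i B)
        (∑ j ∈ s, (κ j • L i j : SF ι (U → V → K)) B) := by
      refine Bd.sum s fun j hj => ?_
      obtain ⟨c, hc, hc'⟩ := hf0 j hj
      rw [SF.smul_apply]
      refine Bd.smul ?_ _
      have h4 := LD.bd ht hz0 hz1 hX0 hs (hf j hj) hc hc' (hL i j hj) B.card B rfl hi
      refine h4.mono hX0 (pow_le_pow_right₀ (by norm_num) (Nat.pow_le_pow_left ?_ 2))
      exact Finset.card_le_univ B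
    refine h3.goodAt hz0 hz1 (hT'.trans hX) ?_
    rw [Finset.sum_const, nsmul_eq_mul, hX']
    have h5 : (0:ℝ) < 2 ^ (Fintype.card ι ^ 2) := by positivity
    gcongr
    linarith
  have hG0' : Φ.Loc ∅ (G ∅) := by
    rw [hG0]
    exact Frame.Loc.algebraMap ∅ c₀
  intro S
  have h3 := bd_of_LD ht hz0' hz1' (hX0.trans hXX') hs' hG0' _ h1 h2 S.card S rfl
  refine h3.goodAt hz0' hz1' (hT''.trans (hX.trans hXX')) ?_
  calc (2:ℝ) ^ (S.card ^ 2) * X' ≤ 2 ^ (Fintype.card ι ^ 2) * X' := by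
        have : (2:ℝ) ^ (S.card ^ 2) ≤ 2 ^ (Fintype.card ι ^ 2) :=
          pow_le_pow_right₀ (by norm_num) (Nat.pow_le_pow_left (Finset.card_le_univ S) 2)
        have h5 : 0 ≤ X' := hX0.trans hXX'
        gcongr
    _ = _ := by rw [hX']; ring

/-- A simple root of a polynomial whose coefficients are polynomials in `L` is itself a polynomial
in `L`, over nilpotent extensions of a field. -/
theorem exists_aeval_eq {m : ℕ} (L : Fin m → SF ι (U → V → K)) (φ : SF ι (U → V → K))
    (c : Fin m → K) (c₀ : K) (hL : ∀ j, L j ∅ = algebraMap K (U → V → K) (c j))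
    (hφ : φ ∅ = algebraMap K (U → V → K) c₀) (P : Polynomial (MvPolynomial (Fin m) K))
    (hP : P.eval₂ (aeval L : MvPolynomial (Fin m) K →ₐ[K] SF ι (U → V → K)).toRingHom φ = 0)
    (hD' : (P.derivative.eval₂
      (aeval L : MvPolynomial (Fin m) K →ₐ[K] SF ι (U → V → K)).toRingHom φ) ∅ ≠ 0) :
    ∃ N : MvPolynomial (Fin m) K, φ = aeval L N := by
  classical
  set AL : MvPolynomial (Fin m) K →ₐ[K] SF ι (U → V → K) := aeval L with hAL
  set B : Subalgebra K (SF ι (U → V → K)) := AL.range with hB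
  set P' : Polynomial B := P.map AL.rangeRestrict.toRingHom with hP'
  -- evaluation at the empty set
  have key : ∀ (p : Polynomial (MvPolynomial (Fin m) K)) (x : SF ι (U → V → K)),
      x ∅ = algebraMap K (U → V → K) c₀ → (p.eval₂ AL.toRingHom x) ∅ =
        algebraMap K (U → V → K) (p.eval₂ (aeval c : MvPolynomial (Fin m) K →ₐ[K] K).toRingHom
          c₀) := by
    intro p x hx
    have h1 : (SF.ev0 (ι := ι) (R := U → V → K)).comp AL.toRingHom =
        (algebraMap K (U → V → K)).comp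
          (aeval c : MvPolynomial (Fin m) K →ₐ[K] K).toRingHom := by
      refine MvPolynomial.ringHom_ext (fun r => ?_) (fun j => ?_)
      · show SF.ev0 (AL (C r)) = algebraMap K (U → V → K) (aeval c (C r))
        rw [hAL, algHom_C, algHom_C, SF.ev0_apply, SF.algebraMap_apply, if_pos rfl]
        rfl
      · show SF.ev0 (AL (X j)) = algebraMap K (U → V → K) (aeval c (X j))
        rw [hAL, aeval_X, aeval_X]
        exact hL j
    show SF.ev0 (p.eval₂ AL.toRingHom x) = _
    rw [Polynomial.hom_eval₂, Polynomial.hom_eval₂, SF.ev0_apply, hx, h1]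
  have h0 : algebraMap K (U → V → K)
      (P.eval₂ (aeval c : MvPolynomial (Fin m) K →ₐ[K] K).toRingHom c₀) = 0 := by
    rw [← key P φ hφ, hP]
    rfl
  have hD : P.derivative.eval₂ (aeval c : MvPolynomial (Fin m) K →ₐ[K] K).toRingHom c₀ ≠ 0 := by
    intro h
    apply hD'
    rw [key P.derivative φ hφ, h, map_zero]
  have haev : ∀ (x : B) (p : Polynomial (MvPolynomial (Fin m) K)),
      ((Polynomial.aeval x (p.map AL.rangeRestrict.toRingHom) : B) : SF ι (U → V → K)) =
        p.eval₂ AL.toRingHom (x : SF ι (U → V → K)) := by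
    intro x p
    have h1 : Polynomial.aeval x (p.map AL.rangeRestrict.toRingHom) =
        p.eval₂ AL.rangeRestrict.toRingHom x := by
      rw [Polynomial.aeval_def, Polynomial.eval₂_map]
      rfl
    rw [h1]
    show B.val.toRingHom _ = _
    rw [Polynomial.hom_eval₂]
    rfl
  have hvinj : Function.Injective (B.val : B →ₐ[K] SF ι (U → V → K)) := Subtype.val_injective
  set x : B := algebraMap K B c₀ with hx
  have hx0 : (x : SF ι (U → V → K)) ∅ = algebraMap K (U → V → K) c₀ := by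
    have h1 : (x : SF ι (U → V → K)) = algebraMap K (SF ι (U → V → K)) c₀ := rfl
    rw [h1, SF.algebraMap_apply, if_pos rfl]
  have hnil : IsNilpotent (Polynomial.aeval x P') := by
    have h1 : IsNilpotent ((Polynomial.aeval x P' : B) : SF ι (U → V → K)) := by
      apply SF.isNilpotent_of_apply_empty
      rw [haev, key _ _ hx0, h0]
    obtain ⟨k, hk⟩ := h1
    refine ⟨k, hvinj ?_⟩
    rw [map_pow, map_zero]
    exact hk
  have hunit : IsUnit (Polynomial.aeval x P'.derivative) := by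
    set cD := P.derivative.eval₂ (aeval c : MvPolynomial (Fin m) K →ₐ[K] K).toRingHom c₀ with hcD
    have h1 : IsNilpotent (Polynomial.aeval x P'.derivative - algebraMap K B cD) := by
      have h2 : IsNilpotent (((Polynomial.aeval x P'.derivative - algebraMap K B cD : B)) : SF ι (U → V → K)) := by
        apply SF.isNilpotent_of_apply_empty
        have h3 : (((Polynomial.aeval x P'.derivative - algebraMap K B cD : B)) : SF ι (U → V → K)) =
            P.derivative.eval₂ AL.toRingHom (x : SF ι (U → V → K)) - algebraMap K (SF ι (U → V → K)) cD := by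
          rw [hP', Polynomial.derivative_map]
          show ((Polynomial.aeval x (P.derivative.map AL.rangeRestrict.toRingHom) : B) : SF ι (U → V → K)) - _ = _
          rw [haev]
          rfl
        rw [h3, SF.sub_def, key _ _ hx0, SF.algebraMap_apply, if_pos rfl, sub_self]
      obtain ⟨k, hk⟩ := h2
      refine ⟨k, hvinj ?_⟩
      rw [map_pow, map_zero]
      exact hk
    have h4 : IsUnit (algebraMap K B cD) := (isUnit_iff_ne_zero.2 hD).map _
    have h5 := h1.isUnit_add_left_of_commute h4 (Commute.all _ _)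
    rwa [add_sub_cancel] at h5
  obtain ⟨r, ⟨hr1, hr2⟩, -⟩ := Polynomial.existsUnique_nilpotent_sub_and_aeval_eq_zero hnil hunit
  -- uniqueness in the big ring
  have hbig : ∀ (y : SF ι (U → V → K)) (p : Polynomial (MvPolynomial (Fin m) K)),
      Polynomial.aeval y (p.map AL.rangeRestrict.toRingHom) = p.eval₂ AL.toRingHom y := by
    intro y p
    rw [Polynomial.aeval_def, Polynomial.eval₂_map]
    rfl
  have hnil' : IsNilpotent (Polynomial.aeval (x : SF ι (U → V → K)) P') := by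
    apply SF.isNilpotent_of_apply_empty
    rw [hbig, key _ _ hx0, h0]
  have hunit' : IsUnit (Polynomial.aeval (x : SF ι (U → V → K)) P'.derivative) := by
    apply SF.isUnit_of_apply_empty
    rw [hP', Polynomial.derivative_map, hbig, key _ _ hx0]
    exact (isUnit_iff_ne_zero.2 hD).map _
  have huniq := (Polynomial.existsUnique_nilpotent_sub_and_aeval_eq_zero hnil' hunit').unique
    (y₁ := φ) (y₂ := (r : SF ι (U → V → K))) ⟨by
      apply SF.isNilpotent_of_apply_empty
      rw [SF.sub_def, hx0, hφ, sub_self], by rw [hbig, hP]⟩ ⟨by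
      obtain ⟨k, hk⟩ := hr1
      exact ⟨k, by
        have := congrArg (B.val) hk
        rw [map_pow, map_zero] at this
        exact this⟩, by
      rw [hbig, ← haev, hr2]
      rfl⟩
  obtain ⟨N, hN⟩ := r.2
  exact ⟨N, by rw [huniq]; exact hN.symm⟩

end Pool.Agent.Y531.Hit
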