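import Mathlib

/-!
# The generator: a sum over words, and a design of graphs of polynomials
-/

set_option autoImplicit false

namespace Pool.Agent.Y531.Hit

open Finset

/-- The cells: for `i : Fin b` and for `j : Fin a` all assignments of the edges `(i, ·, ·)` and
`(·, j, ·)`. There are `b * 2 ^ (a * h) + a * 2 ^ (b * h)` cells. -/
abbrev Cell (a b h : ℕ) : Type :=
  (Fin b × (Fin a × Fin h → Bool)) ⊕ (Fin a × (Fin b × Fin h → Bool))

/-- The sum, over all assignments `w` of the edges `(i, j, k)`, of the product of the values at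
the `b + a` cells which agree with `w`. -/
def wordSum {a b h : ℕ} {R : Type*} [CommSemiring R] (y : Cell a b h → R) : R :=
  ∑ w : Fin b × Fin a × Fin h → Bool, (∏ i : Fin b, y (Sum.inl (i, fun p => w (i, p.1, p.2)))) *
    ∏ j : Fin a, y (Sum.inr (j, fun p => w (p.1, j, p.2)))

/-- The value at the cell `c` of the polynomial over `ZMod q` whose coefficients are the last `t`
digits of `j` in base `q`. -/
def line {a b h : ℕ} (q t : ℕ) (pos : Cell a b h → ZMod q) (j : ℕ) (c : Cell a b h) : ZMod q :=
  ∑ k ∈ range t, ((j / q ^ k % q : ℕ) : ZMod q) * pos c ^ k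

/-- The generator: the variable number `j` is replaced by the sum over words, taken along the graph
of the polynomial number `j`. -/
def gen {a b h : ℕ} {R : Type*} [CommSemiring R] (q t : ℕ) (pos : Cell a b h → ZMod q)
    (y : Cell a b h × ZMod q → R) (j : ℕ) : R :=
  wordSum fun c => y (c, line q t pos j c)

/-- The cell of a label. -/
def cell {a b h : ℕ} (w : Fin b × Fin a × Fin h → Bool) : Fin b ⊕ Fin a → Cell a b h :=
  Sum.elim (fun i => Sum.inl (i, fun p => w (i, p.1, p.2)))
    (fun j => Sum.inr (j, fun p => w (p.1, j, p.2)))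

/-- The label of a cell. -/
def lab {a b h : ℕ} : Cell a b h → Fin b ⊕ Fin a := Sum.map Prod.fst Prod.fst

@[simp] theorem lab_cell {a b h : ℕ} (w : Fin b × Fin a × Fin h → Bool) (l : Fin b ⊕ Fin a) :
    lab (cell w l) = l := by
  rcases l with i | j <;> rfl

theorem wordSum_eq {a b h : ℕ} {R : Type*} [CommSemiring R] (y : Cell a b h → R) :
    wordSum y = ∑ w : Fin b × Fin a × Fin h → Bool, ∏ l, y (cell w l) := by
  rw [wordSum]
  refine Finset.sum_congr rfl fun w _ => ?_
  rw [Fintype.prod_sum_type]
  rfl

theorem map_wordSum {a b h : ℕ} {R R' : Type*} [CommSemiring R] [CommSemiring R'] (φ : R →+* R')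
    (y : Cell a b h → R) : φ (wordSum y) = wordSum fun c => φ (y c) := by
  rw [wordSum_eq, wordSum_eq, map_sum]
  exact Finset.sum_congr rfl fun w _ => map_prod _ _ _

theorem card_cell (a b h : ℕ) :
    Fintype.card (Cell a b h) = b * 2 ^ (a * h) + a * 2 ^ (b * h) := by
  rw [Fintype.card_sum, Fintype.card_prod, Fintype.card_prod, Fintype.card_fun, Fintype.card_fun,
    Fintype.card_prod, Fintype.card_prod, Fintype.card_bool]
  simp only [Fintype.card_fin]

theorem digits_inj {q : ℕ} (t : ℕ) {j j' : ℕ} (h : ∀ k < t, j / q ^ k % q = j' / q ^ k % q) :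
    j % q ^ t = j' % q ^ t := by
  induction t with
  | zero => rw [pow_zero, Nat.mod_one, Nat.mod_one]
  | succ t ih =>
    rw [Nat.mod_pow_succ, Nat.mod_pow_succ, ih fun k hk => h k (Nat.lt_succ_of_lt hk),
      h t (Nat.lt_succ_self t)]

/-- Two graphs meet in at most `t` points. -/
theorem line_meet {a b h : ℕ} {q t : ℕ} (hq : q.Prime) (pos : Cell a b h → ZMod q)
    (hpos : Function.Injective pos) {j j' : ℕ} (hj : j < q ^ t) (hj' : j' < q ^ t) (hne : j ≠ j') :
    (Finset.univ.filter fun c => line q t pos j c = line q t pos j' c).card ≤ t := by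
  classical
  have := Fact.mk hq
  let p : Polynomial (ZMod q) := ∑ k ∈ range t,
    Polynomial.C ((((j / q ^ k % q : ℕ) : ZMod q)) - ((j' / q ^ k % q : ℕ) : ZMod q)) *
      Polynomial.X ^ k
  have hcoeff : ∀ k < t, p.coeff k =
      ((j / q ^ k % q : ℕ) : ZMod q) - ((j' / q ^ k % q : ℕ) : ZMod q) := by
    intro k hk
    simp only [p, Polynomial.finsetSum_coeff, Polynomial.coeff_C_mul_X_pow]
    rw [Finset.sum_ite_eq (range t) k, if_pos (Finset.mem_range.2 hk)]
  have hp : p ≠ 0 := by
    intro h0
    apply hne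
    have h1 := digits_inj (q := q) t (j := j) (j' := j') (by
      intro k hk
      have h2 := hcoeff k hk
      rw [h0, Polynomial.coeff_zero] at h2
      have h3 := sub_eq_zero.1 h2.symm
      rw [ZMod.natCast_eq_natCast_iff'] at h3
      rw [Nat.mod_mod, Nat.mod_mod] at h3
      exact h3)
    rwa [Nat.mod_eq_of_lt hj, Nat.mod_eq_of_lt hj'] at h1
  have hdeg : p.natDegree ≤ t := by
    refine Polynomial.natDegree_sum_le_of_forall_le _ _ fun k hk => ?_
    refine (Polynomial.natDegree_C_mul_X_pow_le _ _).trans ?_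
    exact (Finset.mem_range.1 hk).le
  have hroots : ((Finset.univ.filter fun c => line q t pos j c = line q t pos j' c).image pos) ⊆
      p.roots.toFinset := by
    intro x hx
    obtain ⟨c, hc, rfl⟩ := Finset.mem_image.1 hx
    rw [Multiset.mem_toFinset, Polynomial.mem_roots hp, Polynomial.IsRoot.def]
    have h1 := (Finset.mem_filter.1 hc).2
    simp only [p, Polynomial.eval_finsetSum, Polynomial.eval_mul, Polynomial.eval_C,
      Polynomial.eval_pow, Polynomial.eval_X, sub_mul, Finset.sum_sub_distrib]
    rw [line, line] at h1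
    rw [h1, sub_self]
  rw [← Finset.card_image_of_injective _ hpos]
  refine (Finset.card_le_card hroots).trans ?_
  refine (Multiset.toFinset_card_le _).trans ?_
  exact (Polynomial.card_roots' p).trans hdeg

end Pool.Agent.Y531.Hit
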