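import Mathlib

/-!
# Circuits with quotients and roots of products, and with algebraic functions of few inputs

A circuit computes polynomials in `n` variables. Linear combinations of `1`, of the variables and of
gates are free. A gate is one of the following, where its inputs are linear combinations of `1`, of
the variables and of gates of smaller depth:
* a polynomial some power of which is a product or a quotient of products of arbitrary powers of at
  most `s` inputs, for example a product of arbitrary powers of at most `s` inputs;
* a polynomial which is algebraic over the algebra generated by `m` inputs, for example an arbitrary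
  polynomial, of any degree and complexity, of `m` inputs.
-/

set_option autoImplicit false

namespace Pool.Agent.Y531.Hit

open MvPolynomial

variable {F : Type*} [Field F] {n : ℕ}

/-- Linear combinations of `1`, of the variables and of members of `S`. -/
noncomputable def Lin (S : Set (MvPolynomial (Fin n) F)) : Submodule F (MvPolynomial (Fin n) F) :=
  Submodule.span F (insert 1 (Set.range X ∪ S))

/-- `f` is computed by one gate from linear combinations of `1`, of the variables and of members
of `S`. -/
def IsGate (s m : ℕ) (S : Set (MvPolynomial (Fin n) F)) (f : MvPolynomial (Fin n) F) : Prop :=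
  (∃ (p e₀ : ℕ) (l : Fin p → MvPolynomial (Fin n) F) (e e' : Fin p → ℕ),
    p ≤ s ∧ e₀ ≠ 0 ∧ (∀ j, l j ∈ Lin S) ∧ ∏ j, l j ^ e' j ≠ 0 ∧
      f ^ e₀ * ∏ j, l j ^ e' j = ∏ j, l j ^ e j) ∨
  (∃ l : Fin m → MvPolynomial (Fin n) F,
    (∀ j, l j ∈ Lin S) ∧ IsAlgebraic (Algebra.adjoin F (Set.range l)) f)

/-- A circuit in `n` variables with `s` gates, of depth at most `Δ`. -/
structure Circuit (F : Type*) [Field F] (n s Δ m : ℕ) where
  /-- the polynomial computed at a gate -/
  g : Fin s → MvPolynomial (Fin n) F
  /-- the depth of a gate -/
  depth : Fin s → ℕ
  depth_le : ∀ i, depth i ≤ Δ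
  isGate : ∀ i, IsGate s m {f | ∃ i', depth i' < depth i ∧ f = g i'} (g i)

/-- `f` is a linear combination of `1`, of the variables and of gates of the circuit. -/
def Circuit.Computes {n s Δ m : ℕ} (C : Circuit F n s Δ m) (f : MvPolynomial (Fin n) F) : Prop :=
  f ∈ Lin (Set.range C.g)

end Pool.Agent.Y531.Hit
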