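import Pool.Agent.Y531.Hit.Alg
import Pool.Agent.Y531.Hit.Model

/-!
# All gates keep the coefficients of large sets of labels small
-/

set_option autoImplicit false
set_option linter.unusedSectionVars false
set_option maxHeartbeats 1000000

namespace Pool.Agent.Y531.Hit

open Finset MvPolynomial Pool.Agent.W942 Pool.Agent.Y531

variable {F K : Type*} [Field F] [Field K] [Algebra F K] {ι U V : Type} [Fintype ι]
  [DecidableEq ι] {n : ℕ} {Φ : Frame ι U V}

theorem Good.zero {T : ℕ} {X : ℝ} (hX : 0 ≤ X) : Good Φ T X (0 : SF ι (U → V → K)) := fun B =>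
  ⟨Frame.Loc.zero B, fun _ => HasRkR.zero.mono (mul_nonneg hX (Φ.wt_pos B).le)⟩

/-- Functions which do not depend on the labels. -/
theorem Good.cst {T : ℕ} {X : ℝ} (hT : 1 ≤ T) (hX : 0 ≤ X) (c : K) :
    Good Φ T X (SF.cst (fun _ _ => c) : SF ι (U → V → K)) := fun B =>
  ⟨by
    rw [SF.cst_apply]
    by_cases hB : B = ∅
    · rw [if_pos hB]; exact Frame.Loc.const B c
    · rw [if_neg hB]; exact Frame.Loc.zero B, fun hB => by
    have hne : B ≠ ∅ := by
      rintro rfl
      rw [Finset.card_empty] at hB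
      omega
    rw [SF.cst_apply, if_neg hne]
    exact HasRkR.zero.mono (mul_nonneg hX (Φ.wt_pos B).le)⟩

theorem smul_eq (c : F) (h : U → V → K) : c • h = algebraMap F K c • h :=
  (algebraMap_smul K c h).symm

instance : IsScalarTower F K (SF ι (U → V → K)) :=
  IsScalarTower.of_algebraMap_eq fun c => by
    refine SF.ext' fun S => ?_
    rw [SF.algebraMap_apply, SF.algebraMap_apply, ← IsScalarTower.algebraMap_apply]

/-- Linear combinations. -/
theorem span_good {I A : Type*} [Fintype I] [CommRing A] [Algebra F A] {T : ℕ} {X : ℝ}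
    (hT : 1 ≤ T) (hX : 0 ≤ X) {g : I → A} {p : I → Prop} {Θ : A →ₐ[F] SF ι (U → V → K)}
    (hg : ∀ i, p i → Good Φ T X (Θ (g i))) {f : A}
    (hf : f ∈ Submodule.span F (insert 1 {f | ∃ i, p i ∧ f = g i})) :
    Good Φ T (Fintype.card I * X) (Θ f) := by
  classical
  have hrep : ∃ (c₀ : F) (c : I → F), (∀ i, ¬ p i → c i = 0) ∧
      f = c₀ • 1 + ∑ i, c i • g i := by
    refine Submodule.span_induction (p := fun f _ => ∃ (c₀ : F) (c : I → F),
      (∀ i, ¬ p i → c i = 0) ∧ f = c₀ • 1 + ∑ i, c i • g i) ?_ ?_ ?_ ?_ hf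
    · intro x hx
      rcases hx with rfl | ⟨i, hi, rfl⟩
      · exact ⟨1, 0, fun _ _ => rfl, by simp⟩
      · refine ⟨0, fun j => if j = i then 1 else 0, fun j hj => ?_, ?_⟩
        · exact if_neg (fun h : j = i => hj (by rw [h]; exact hi))
        · simp
    · exact ⟨0, 0, fun _ _ => rfl, by simp⟩
    · rintro x y _ _ ⟨c₀, c, h1, h2⟩ ⟨c₀', c', h1', h2'⟩
      refine ⟨c₀ + c₀', fun i => c i + c' i, fun i hi => by
        show c i + c' i = 0
        rw [h1 i hi, h1' i hi, add_zero], ?_⟩
      rw [h2, h2']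
      simp only [add_smul, Finset.sum_add_distrib]
      abel
    · rintro a x _ ⟨c₀, c, h1, h2⟩
      refine ⟨a * c₀, fun i => a * c i, fun i hi => by
        show a * c i = 0
        rw [h1 i hi, mul_zero], ?_⟩
      rw [h2, smul_add, Finset.smul_sum]
      simp only [smul_smul]
  obtain ⟨c₀, c, hc, rfl⟩ := hrep
  have h1 : Θ (c₀ • 1 + ∑ i, c i • g i) = SF.cst (fun _ _ => algebraMap F K c₀) +
      ∑ i, c i • Θ (g i) := by
    rw [map_add, map_smul, map_one, map_sum, Algebra.smul_def, mul_one]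
    simp only [map_smul]
    rfl
  rw [h1]
  intro B
  have h2 : ∀ i, c i ≠ 0 → GoodAt Φ T X B (Θ (g i) B) := by
    intro i hi
    refine hg i ?_ B
    by_contra hp
    exact hi (hc i hp)
  have hloc : ∀ i, Φ.Loc B ((c i • Θ (g i) : SF ι (U → V → K)) B) := by
    intro i
    rw [SF.smul_apply, smul_eq]
    by_cases hi : c i = 0
    · rw [hi, map_zero, zero_smul]; exact Frame.Loc.zero B
    · exact (h2 i hi).1.smul _
  have h0 := Good.cst (Φ := Φ) hT hX (algebraMap F K c₀) B
  constructor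
  · rw [SF.add_def, SF.sum_apply]
    exact h0.1.add (Frame.Loc.sum _ fun i _ => hloc i)
  · intro hB
    have hne : B ≠ ∅ := by
      rintro rfl
      rw [Finset.card_empty] at hB
      omega
    rw [SF.add_def, SF.cst_apply, if_neg hne, zero_add, SF.sum_apply]
    have h3 := HasRkR.sum (K := K) (U := U) (V := V) Finset.univ
      (M := fun i => ((c i • Θ (g i) : SF ι (U → V → K)) B)) (ρ := fun _ => X * Φ.wt B)
      (fun i _ => by
        rw [SF.smul_apply, smul_eq]
        by_cases hi : c i = 0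
        · rw [hi, map_zero, zero_smul]
          exact HasRkR.zero.mono (mul_nonneg hX (Φ.wt_pos B).le)
        · exact rk_smul ((h2 i hi).2 hB) _)
    refine (h3.mono ?_).congr fun u v => ?_
    · rw [Finset.sum_const, Finset.card_univ, nsmul_eq_mul, mul_assoc]
    · rw [Finset.sum_apply, Finset.sum_apply]

/-- Linear combinations of `1`, of variables and of gates. -/
theorem lin_good {T : ℕ} {X : ℝ} (hT : 1 ≤ T) (hX : 0 ≤ X) {s : ℕ}
    {g : Fin s → MvPolynomial (Fin n) F} {p : Fin s → Prop}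
    {Θ : MvPolynomial (Fin n) F →ₐ[F] SF ι (U → V → K)}
    (hv : ∀ j, Good Φ T X (Θ (MvPolynomial.X j))) (hg : ∀ i, p i → Good Φ T X (Θ (g i)))
    {f : MvPolynomial (Fin n) F} (hf : f ∈ Lin {f | ∃ i, p i ∧ f = g i}) :
    Good Φ T (((n : ℝ) + s) * X) (Θ f) := by
  have h1 : f ∈ Submodule.span F (insert (1 : MvPolynomial (Fin n) F)
      {f | ∃ i : Fin n ⊕ Fin s, Sum.elim (fun _ => True) p i ∧
        f = Sum.elim (fun j => MvPolynomial.X j) g i}) := by
    refine Submodule.span_mono ?_ hf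
    refine Set.insert_subset_insert ?_
    rintro x (⟨j, rfl⟩ | ⟨i, hi, rfl⟩)
    · exact ⟨Sum.inl j, trivial, rfl⟩
    · exact ⟨Sum.inr i, hi, rfl⟩
  have h2 := span_good (Φ := Φ) (Θ := Θ) hT hX (fun i hi => by
    rcases i with j | i
    · exact hv j
    · exact hg i hi) h1
  refine h2.mono le_rfl (le_of_eq ?_)
  rw [Fintype.card_sum, Fintype.card_fin, Fintype.card_fin]
  push_cast
  ring

/-- The minimal equation of an algebraic function of `m` arguments. -/
theorem exists_min_eq [CharZero F] {m : ℕ} (l : Fin m → MvPolynomial (Fin n) F)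
    {f : MvPolynomial (Fin n) F} (hf : IsAlgebraic (Algebra.adjoin F (Set.range l)) f) :
    ∃ P : Polynomial (MvPolynomial (Fin m) F),
      P.eval₂ (aeval l : MvPolynomial (Fin m) F →ₐ[F] MvPolynomial (Fin n) F).toRingHom f = 0 ∧
      P.derivative.eval₂
        (aeval l : MvPolynomial (Fin m) F →ₐ[F] MvPolynomial (Fin n) F).toRingHom f ≠ 0 := by
  classical
  set A := Algebra.adjoin F (Set.range l) with hA
  have hex : ∃ k, ∃ P : Polynomial A, P ≠ 0 ∧ Polynomial.aeval f P = 0 ∧ P.natDegree = k := by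
    obtain ⟨P, hP, hPf⟩ := hf
    exact ⟨_, P, hP, hPf, rfl⟩
  obtain ⟨P, hP0, hPf, hPk⟩ := Nat.find_spec hex
  have hmin : ∀ Q : Polynomial A, Q ≠ 0 → Polynomial.aeval f Q = 0 →
      P.natDegree ≤ Q.natDegree := by
    intro Q hQ hQf
    rw [hPk]
    exact Nat.find_min' hex ⟨Q, hQ, hQf, rfl⟩
  have hdeg : P.natDegree ≠ 0 := by
    intro h0
    obtain ⟨c, rfl⟩ := Polynomial.natDegree_eq_zero.1 h0
    rw [Polynomial.aeval_C] at hPf
    apply hP0
    have h1 : c = 0 := by
      apply Subtype.ext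
      exact hPf
    rw [h1, Polynomial.C_0]
  have hder0 : P.derivative ≠ 0 := by
    intro h0
    exact hdeg (Polynomial.derivative_eq_zero.1 h0)
  have hder : Polynomial.aeval f P.derivative ≠ 0 := by
    intro h0
    have h1 := hmin _ hder0 h0
    have h2 := Polynomial.natDegree_derivative_lt hdeg
    omega
  -- lift the coefficients
  have hmem : ∀ x, (aeval l : MvPolynomial (Fin m) F →ₐ[F] MvPolynomial (Fin n) F) x ∈ A := by
    intro x
    rw [hA, Algebra.adjoin_range_eq_range_aeval]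
    exact ⟨x, rfl⟩
  let ψ : MvPolynomial (Fin m) F →ₐ[F] A :=
    (aeval l : MvPolynomial (Fin m) F →ₐ[F] MvPolynomial (Fin n) F).codRestrict A hmem
  have hψ : Function.Surjective ψ := by
    rintro ⟨y, hy⟩
    rw [hA, Algebra.adjoin_range_eq_range_aeval] at hy
    obtain ⟨x, hx⟩ := hy
    exact ⟨x, Subtype.ext hx⟩
  obtain ⟨P', hP'⟩ := Polynomial.map_surjective ψ.toRingHom hψ P
  have key : ∀ Q : Polynomial (MvPolynomial (Fin m) F),
      Polynomial.aeval f (Q.map ψ.toRingHom) =
      Q.eval₂ (aeval l : MvPolynomial (Fin m) F →ₐ[F] MvPolynomial (Fin n) F).toRingHom f := by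
    intro Q
    rw [Polynomial.aeval_def, Polynomial.eval₂_map]
    rfl
  refine ⟨P', ?_, ?_⟩
  · rw [← key, hP', hPf]
  · rw [← key, ← Polynomial.derivative_map, hP']
    exact hder

/-- **Every gate.** -/
theorem gate_good [CharZero F] {s m : ℕ} {S : Set (MvPolynomial (Fin n) F)}
    {f : MvPolynomial (Fin n) F} (hf : IsGate s m S f) : ∃ Z : Finset (MvPolynomial (Fin n) F),
      (∀ g ∈ Z, g ≠ 0) ∧ ∀ (Θ : MvPolynomial (Fin n) F →ₐ[F] SF ι (U → V → K)),
        (∀ g, ∃ c : K, Θ g ∅ = algebraMap K (U → V → K) c) →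
        (∀ g ∈ Z, Θ g ∅ ≠ 0) →
        ∀ (T T' T'' : ℕ) (z z' X ϑ : ℝ), T ≤ T' → T' ≤ T'' → 1 ≤ T → Triv K Φ →
          0 ≤ z → z ≤ 1 → 0 ≤ z' → z' ≤ 1 → 0 ≤ ϑ → ϑ ≤ X → Scale K Φ T z → Scale K Φ T' z' →
          z ^ T' ≤ ϑ → z' ^ T'' ≤ ϑ → (∀ g ∈ Lin S, Good Φ T X (Θ g)) →
          Good Φ T'' (((s : ℝ) + 1) * 2 ^ (2 * Fintype.card ι ^ 2) *
            ((m : ℝ) + 1) ^ Fintype.card ι * X) (Θ f) ∧
          ∀ g ∈ Z, Good Φ T'' (((s : ℝ) + 1) * 2 ^ (2 * Fintype.card ι ^ 2) *
            ((m : ℝ) + 1) ^ Fintype.card ι * X) (Θ g) := by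
  classical
  have hchK : CharZero K := charZero_of_injective_algebraMap (algebraMap F K).injective
  have hbig : ∀ (X : ℝ), 0 ≤ X → ∀ y : ℝ, y ≤ ((s : ℝ) + 1) * 2 ^ (2 * Fintype.card ι ^ 2) *
      ((m : ℝ) + 1) ^ Fintype.card ι → y * X ≤
      ((s : ℝ) + 1) * 2 ^ (2 * Fintype.card ι ^ 2) *
      ((m : ℝ) + 1) ^ Fintype.card ι * X := fun X hX y hy =>
    mul_le_mul_of_nonneg_right hy hX
  have hs1 : (1:ℝ) ≤ (s : ℝ) + 1 := by
    have : (0:ℝ) ≤ s := Nat.cast_nonneg s
    linarith
  have h21 : (1:ℝ) ≤ 2 ^ (2 * Fintype.card ι ^ 2) := one_le_pow₀ (by norm_num)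
  have hm0 : (1:ℝ) ≤ (m : ℝ) + 1 := by
    have : (0:ℝ) ≤ (m : ℝ) := by positivity
    linarith
  have hm1 : (1:ℝ) ≤ ((m : ℝ) + 1) ^ Fintype.card ι := one_le_pow₀ hm0
  have hone : (1:ℝ) ≤ ((s : ℝ) + 1) * 2 ^ (2 * Fintype.card ι ^ 2) *
      ((m : ℝ) + 1) ^ Fintype.card ι :=
    one_le_mul_of_one_le_of_one_le (one_le_mul_of_one_le_of_one_le hs1 h21) hm1
  rcases hf with ⟨p, e₀, l, e, e', hp, he₀, hl, hne, heq⟩ | ⟨l, hl, halg⟩
  · set s' := Finset.univ.filter fun j => l j ≠ 0 with hs'def
    refine ⟨s'.image l ∪ ({f} : Finset (MvPolynomial (Fin n) F)).filter fun g => g ≠ 0, ?_, ?_⟩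
    · intro g hg
      rcases Finset.mem_union.1 hg with h | h
      · obtain ⟨j, hj, rfl⟩ := Finset.mem_image.1 h
        exact (Finset.mem_filter.1 hj).2
      · exact (Finset.mem_filter.1 h).2
    · intro Θ hc hZ T T' T'' z z' X ϑ hT hT' hT1 ht hz0 hz1 hz0' hz1' hϑ hX hs hs' hzT hzT' hlin
      have hX0 : 0 ≤ X := hϑ.trans hX
      have hnz : ∀ g, Θ g ∅ ≠ 0 → ∃ c : K, c ≠ 0 ∧ Θ g ∅ = algebraMap K (U → V → K) c := by
        intro g hg
        obtain ⟨c, hc⟩ := hc g
        refine ⟨c, ?_, hc⟩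
        rintro rfl
        exact hg (by rw [hc, map_zero])
      have hgood : Good Φ T'' (((s : ℝ) + 1) * 2 ^ (2 * Fintype.card ι ^ 2) *
          ((m : ℝ) + 1) ^ Fintype.card ι * X) (Θ f) := by
        by_cases hf0 : f = 0
        · rw [hf0, map_zero]
          exact Good.zero (by positivity)
        have hfZ := hZ f (Finset.mem_union_right _ (Finset.mem_filter.2
          ⟨Finset.mem_singleton_self f, hf0⟩))
        obtain ⟨c₀, hc₀, hc₀'⟩ := hnz f hfZ
        have he' : ∀ j, j ∉ s' → e' j = 0 := by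
          intro j hj
          by_contra h
          apply hne
          refine Finset.prod_eq_zero (Finset.mem_univ j) ?_
          have h1 : l j = 0 := by
            by_contra h2
            exact hj (Finset.mem_filter.2 ⟨Finset.mem_univ j, h2⟩)
          rw [h1, zero_pow h]
        have he : ∀ j, j ∉ s' → e j = 0 := by
          intro j hj
          by_contra h
          have h1 : l j = 0 := by
            by_contra h2
            exact hj (Finset.mem_filter.2 ⟨Finset.mem_univ j, h2⟩)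
          have h2 : ∏ j, l j ^ e j = 0 := by
            refine Finset.prod_eq_zero (Finset.mem_univ j) ?_
            rw [h1, zero_pow h]
          rw [h2] at heq
          exact mul_ne_zero (pow_ne_zero _ hf0) hne heq
        have h1 : ∏ j, l j ^ e j = ∏ j ∈ s', l j ^ e j := by
          symm
          refine Finset.prod_subset (Finset.subset_univ _) fun j _ hj => ?_
          rw [he j hj, pow_zero]
        have h1' : ∏ j, l j ^ e' j = ∏ j ∈ s', l j ^ e' j := by
          symm
          refine Finset.prod_subset (Finset.subset_univ _) fun j _ hj => ?_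
          rw [he' j hj, pow_zero]
        rw [h1, h1'] at heq
        have heq' := congrArg Θ heq
        rw [map_mul, map_pow, map_prod, map_prod] at heq'
        simp only [map_pow] at heq'
        have h2 := quot_good ht hz0 hz1 hz0' hz1' hϑ hX hs hs' hzT hzT' s'
          (fun j => Θ (l j)) e e' e₀ he₀ (Θ f) heq' (fun j _ => hlin _ (hl j))
          (fun j hj => hnz _ (hZ (l j) (Finset.mem_union_left _ (Finset.mem_image_of_mem l hj))))
          hc₀ hc₀'
        refine h2.mono le_rfl (hbig X hX0 _ ?_)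
        have h3 : (s'.card : ℝ) ≤ (s : ℝ) := by
          have h4 : s'.card ≤ s := by
            refine (Finset.card_le_univ _).trans ?_
            rw [Fintype.card_fin]; exact hp
          exact_mod_cast h4
        calc ((s'.card : ℝ) + 1) * 2 ^ (2 * Fintype.card ι ^ 2)
            ≤ ((s : ℝ) + 1) * 2 ^ (2 * Fintype.card ι ^ 2) * 1 := by rw [mul_one]; gcongr
          _ ≤ _ := by gcongr
      refine ⟨hgood, ?_⟩
      intro g hg
      rcases Finset.mem_union.1 hg with h | h
      · obtain ⟨j, hj, rfl⟩ := Finset.mem_image.1 h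
        exact (hlin _ (hl j)).mono (hT.trans hT') (le_mul_of_one_le_left hX0 hone)
      · rw [Finset.mem_filter, Finset.mem_singleton] at h
        rw [h.1]
        exact hgood
  · obtain ⟨P, hP, hD⟩ := exists_min_eq l halg
    set D := P.derivative.eval₂
      (aeval l : MvPolynomial (Fin m) F →ₐ[F] MvPolynomial (Fin n) F).toRingHom f with hDdef
    refine ⟨{D}, ?_, ?_⟩
    · intro g hg
      rw [Finset.mem_singleton.1 hg]
      exact hD
    · intro Θ hc hZ T T' T'' z z' X ϑ hT hT' hT1 ht hz0 hz1 hz0' hz1' hϑ hX hs hs' hzT hzT' hlin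
      have hX0 : 0 ≤ X := hϑ.trans hX
      have hc' := fun j => hc (l j)
      choose c hcl using hc'
      obtain ⟨c₀, hc₀⟩ := hc f
      set L : Fin m → SF ι (U → V → K) := fun j => Θ (l j) with hL
      set P' : Polynomial (MvPolynomial (Fin m) K) := P.map (MvPolynomial.map (algebraMap F K))
        with hP'
      have key : ∀ Q : Polynomial (MvPolynomial (Fin m) F),
          (Q.map (MvPolynomial.map (algebraMap F K))).eval₂
            (aeval L : MvPolynomial (Fin m) K →ₐ[K] SF ι (U → V → K)).toRingHom (Θ f) =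
          Θ (Q.eval₂
            (aeval l : MvPolynomial (Fin m) F →ₐ[F] MvPolynomial (Fin n) F).toRingHom f) := by
        intro Q
        rw [Polynomial.eval₂_map]
        show _ = Θ.toRingHom _
        rw [Polynomial.hom_eval₂]
        congr 1
        refine MvPolynomial.ringHom_ext (fun r => ?_) (fun j => ?_)
        · show aeval L (MvPolynomial.map (algebraMap F K) (C r)) = Θ (aeval l (C r))
          rw [MvPolynomial.map_C, algHom_C, algHom_C, AlgHom.commutes,
            ← IsScalarTower.algebraMap_apply]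
        · show aeval L (MvPolynomial.map (algebraMap F K) (MvPolynomial.X j)) =
            Θ (aeval l (MvPolynomial.X j))
          rw [MvPolynomial.map_X, aeval_X, aeval_X]
      obtain ⟨N, hN⟩ := exists_aeval_eq L (Θ f) c c₀ hcl hc₀ P' (by
        rw [hP', key, hP, map_zero]) (by
        rw [hP', Polynomial.derivative_map, key]
        exact hZ D (Finset.mem_singleton_self D))
      have hpoly : ∀ Q : MvPolynomial (Fin m) K, Good Φ T''
          (((s : ℝ) + 1) * 2 ^ (2 * Fintype.card ι ^ 2) *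
            ((m : ℝ) + 1) ^ Fintype.card ι * X) (aeval L Q) := by
        intro Q
        have h2 := poly_good ht hz0 hz1 hϑ hX hs hzT L
          (fun j => hlin _ (hl j)) ((m : ℝ) + 1) hm0 (by
            rw [Fintype.card_fin]
            linarith) Q
        refine h2.mono hT' (hbig X hX0 _ ?_)
        have h3 : (2:ℝ) ^ (Fintype.card ι ^ 2) ≤ 2 ^ (2 * Fintype.card ι ^ 2) :=
          pow_le_pow_right₀ (by norm_num) (by omega)
        calc ((m : ℝ) + 1) ^ Fintype.card ι * 2 ^ (Fintype.card ι ^ 2)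
            ≤ ((m : ℝ) + 1) ^ Fintype.card ι * 2 ^ (2 * Fintype.card ι ^ 2) := by gcongr
          _ = 1 * 2 ^ (2 * Fintype.card ι ^ 2) * ((m : ℝ) + 1) ^ Fintype.card ι := by ring
          _ ≤ _ := by gcongr
      refine ⟨by rw [hN]; exact hpoly N, ?_⟩
      intro g hg
      rw [Finset.mem_singleton.1 hg]
      have h3 : Θ D = aeval L (P'.derivative.eval N) := by
        rw [hDdef, ← key P.derivative, ← Polynomial.derivative_map, ← hP', hN]
        exact Polynomial.eval₂_at_apply
          (aeval L : MvPolynomial (Fin m) K →ₐ[K] SF ι (U → V → K)).toRingHom N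
      rw [h3]
      exact hpoly _

end Pool.Agent.Y531.Hit
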