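import Pool.Agent.Y531.Hit.Theta
import Pool.Agent.Y531.Hit.Gates
import Pool.Agent.Y531.Generic

/-!
# The other coordinates of the generator, and the substitution
-/

set_option autoImplicit false
set_option linter.unusedSectionVars false
set_option maxHeartbeats 1000000

namespace Pool.Agent.Y531.Hit

open Finset MvPolynomial Pool.Agent.W942 Pool.Agent.Y531

variable {a b h q : ℕ} {F K : Type*} [Field F] [Field K] [Algebra F K]

theorem theta_good (A : Cell a b h × ZMod q → F) (L : Cell a b h → ZMod q) {X : ℝ} (hX : 0 ≤ X)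
    (x : Cell a b h × ZMod q) : Good (bitFrame a b h) 2 X (theta K A L x) := by
  classical
  intro B
  by_cases hx : x.2 = L x.1
  · rw [theta, if_pos hx, SF.add_def, SF.cst_apply, SF.sgl_apply]
    constructor
    · refine Frame.Loc.add ?_ ?_
      · by_cases hB : B = ∅
        · rw [if_pos hB]; exact Frame.Loc.const _ _
        · rw [if_neg hB]; exact Frame.Loc.zero _
      · by_cases hB : B = {lab x.1}
        · rw [if_pos hB, hB]
          intro u v u' v' hs
          exact ind_same K x.1 u v u' v' (hs _ (Finset.mem_singleton_self _))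
        · rw [if_neg hB]; exact Frame.Loc.zero _
    · intro hB
      have h1 : B ≠ ∅ := by
        rintro rfl
        rw [Finset.card_empty] at hB
        omega
      have h2 : B ≠ {lab x.1} := by
        rintro rfl
        rw [Finset.card_singleton] at hB
        omega
      rw [if_neg h1, if_neg h2, add_zero]
      exact HasRkR.zero.mono (mul_nonneg hX ((bitFrame a b h).wt_pos B).le)
  · have h1 : theta K A L x = SF.cst (fun _ _ => algebraMap F K (A x)) := by
      rw [theta, if_neg hx, add_zero]
    rw [h1]
    exact Good.cst (by norm_num) hX _ B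

/-- A coordinate of the generator whose graph meets `L` in few points. -/
theorem leaf_good (A : Cell a b h × ZMod q → F) (L : Cell a b h → ZMod q) {t k : ℕ}
    (pos : Cell a b h → ZMod q) (j : ℕ)
    (hmeet : (Finset.univ.filter fun c => line q t pos j c = L c).card ≤ k)
    {T' : ℕ} {z ϑ : ℝ} (hz0 : 0 ≤ z) (hz1 : z ≤ 1) (hϑ : 0 ≤ ϑ)
    (hs : Scale K (bitFrame a b h) 2 z) (hT' : z ^ T' ≤ ϑ) :
    Good (bitFrame a b h) T' (((k : ℝ) + 1) ^ (a + b) * 2 ^ ((a + b) ^ 2) * ϑ)
      (thetaHom K A L (G F t pos j)) := by
  classical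
  set Λ := Finset.univ.filter fun c => line q t pos j c = L c with hΛ
  let P : MvPolynomial Λ K := wordSum fun c : Cell a b h =>
    if hc : c ∈ Λ then (MvPolynomial.X ⟨c, hc⟩ : MvPolynomial Λ K)
    else C (algebraMap F K (A (c, line q t pos j c)))
  have h1 : thetaHom K A L (G F t pos j) =
      aeval (fun c : Λ => theta K A L (c.1, line q t pos j c.1)) P := by
    have h2 : thetaHom K A L (G F t pos j) = wordSum fun c : Cell a b h =>
        thetaHom K A L
          (MvPolynomial.X (c, line q t pos j c) : MvPolynomial (Cell a b h × ZMod q) F) :=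
      map_wordSum (thetaHom K A L).toRingHom
        (fun c : Cell a b h =>
          (MvPolynomial.X (c, line q t pos j c) : MvPolynomial (Cell a b h × ZMod q) F))
    have h3 : aeval (fun c : Λ => theta K A L (c.1, line q t pos j c.1)) P =
        wordSum fun c : Cell a b h => aeval (fun c : Λ => theta K A L (c.1, line q t pos j c.1))
          (if hc : c ∈ Λ then (MvPolynomial.X ⟨c, hc⟩ : MvPolynomial Λ K)
            else C (algebraMap F K (A (c, line q t pos j c)))) :=
      map_wordSum (aeval (fun c : Λ => theta K A L (c.1, line q t pos j c.1)) :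
        MvPolynomial Λ K →ₐ[K] _).toRingHom _
    rw [h2, h3]
    congr 1
    funext c
    rw [thetaHom, aeval_X]
    by_cases hc : c ∈ Λ
    · rw [dif_pos hc, aeval_X]
    · rw [dif_neg hc, algHom_C]
      have hne : (c, line q t pos j c).2 ≠ L (c, line q t pos j c).1 := fun h =>
        hc (Finset.mem_filter.2 ⟨Finset.mem_univ c, h⟩)
      rw [theta, if_neg hne, add_zero]
      rfl
  rw [h1]
  have hcard : Fintype.card (Fin b ⊕ Fin a) = a + b := by
    rw [Fintype.card_sum, Fintype.card_fin, Fintype.card_fin, add_comm]
  have h2 := poly_good (triv_bitFrame a b h) hz0 hz1 hϑ le_rfl hs hT'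
    (fun c : Λ => theta K A L (c.1, line q t pos j c.1))
    (fun c => theta_good A L hϑ _) ((k : ℝ) + 1) (by
      have : (0:ℝ) ≤ k := Nat.cast_nonneg k
      linarith) (by
      rw [Fintype.card_coe]
      have h3 : (Λ.card : ℝ) ≤ k := by exact_mod_cast hmeet
      linarith) P
  rw [hcard] at h2
  exact h2

/-- The expansion of polynomials in the seed variables and a further variable. -/
noncomputable def zHom (R : Type*) [CommRing R] [Algebra F R] (A : Cell a b h × ZMod q → F)
    (L : Cell a b h → ZMod q) (ζ : R) : Polynomial (MvPolynomial (Cell a b h × ZMod q) F) →+*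
      SF (Fin b ⊕ Fin a) ((Ed a b h → Bool) → (Ed a b h → Bool) → R) :=
  Polynomial.eval₂RingHom (thetaHom R A L).toRingHom (SF.cst (fun _ _ => ζ))

section zHom
variable {R R' : Type*} [CommRing R] [Algebra F R] [CommRing R'] [Algebra F R']
  (A : Cell a b h × ZMod q → F) (L : Cell a b h → ZMod q) (ζ : R)

theorem zHom_C (p : MvPolynomial (Cell a b h × ZMod q) F) :
    zHom R A L ζ (Polynomial.C p) = thetaHom R A L p := by
  rw [zHom, Polynomial.coe_eval₂RingHom, Polynomial.eval₂_C]
  rfl

theorem zHom_X : zHom (F := F) R A L ζ Polynomial.X = SF.cst (fun _ _ => ζ) := by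
  rw [zHom, Polynomial.coe_eval₂RingHom, Polynomial.eval₂_X]

theorem zHom_map (φ : R →ₐ[F] R') (p : Polynomial (MvPolynomial (Cell a b h × ZMod q) F)) :
    SF.mapR (SF.push (φ : R →+* R')) (zHom R A L ζ p) = zHom R' A L (φ ζ) p := by
  have h1 : (SF.mapR (ι := Fin b ⊕ Fin a) (SF.push (U := Ed a b h → Bool)
      (V := Ed a b h → Bool) (φ : R →+* R'))).comp (zHom R A L ζ) = zHom R' A L (φ ζ) := by
    refine Polynomial.ringHom_ext (fun p => ?_) ?_
    · rw [RingHom.comp_apply, zHom_C, zHom_C, thetaHom_map]
    · rw [RingHom.comp_apply, zHom_X, zHom_X, SF.mapR_cst]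
      rfl
  exact congrFun (congrArg DFunLike.coe h1) p

theorem zHom_empty (p : Polynomial (MvPolynomial (Cell a b h × ZMod q) F)) :
    zHom R A L ζ p ∅ = fun _ _ => (p.map (eval A)).eval₂ (algebraMap F R) ζ := by
  let d : R →+* ((Ed a b h → Bool) → (Ed a b h → Bool) → R) :=
    (Pi.constRingHom (Ed a b h → Bool) ((Ed a b h → Bool) → R)).comp
      (Pi.constRingHom (Ed a b h → Bool) R)
  have h1 : (SF.ev0 (ι := Fin b ⊕ Fin a)
      (R := (Ed a b h → Bool) → (Ed a b h → Bool) → R)).comp (zHom R A L ζ) =
      d.comp ((Polynomial.eval₂RingHom (algebraMap F R) ζ).comp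
        (Polynomial.mapRingHom (eval A))) := by
    refine Polynomial.ringHom_ext (fun p => ?_) ?_
    · have h2 : ((Polynomial.eval₂RingHom (algebraMap F R) ζ).comp
          (Polynomial.mapRingHom (eval A))) (Polynomial.C p) = algebraMap F R (eval A p) := by
        rw [RingHom.comp_apply, Polynomial.coe_mapRingHom, Polynomial.map_C,
          Polynomial.coe_eval₂RingHom, Polynomial.eval₂_C]
      rw [RingHom.comp_apply, zHom_C, SF.ev0_apply, thetaHom_empty, RingHom.comp_apply, h2]
      rfl
    · have h2 : ((Polynomial.eval₂RingHom (algebraMap F R) ζ).comp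
          (Polynomial.mapRingHom (eval A))) Polynomial.X = ζ := by
        rw [RingHom.comp_apply, Polynomial.coe_mapRingHom, Polynomial.map_X,
          Polynomial.coe_eval₂RingHom, Polynomial.eval₂_X]
      rw [RingHom.comp_apply, zHom_X, SF.ev0_apply, SF.cst_apply, if_pos rfl,
        RingHom.comp_apply, h2]
      rfl
  exact congrFun (congrArg DFunLike.coe h1) p

end zHom

/-- The variables below `i` are replaced by the generator, the variable `i` by a new variable, the
variables above `i` by constants. -/
noncomputable def sub {n : ℕ} (F : Type*) [Field F] (t : ℕ) (pos : Cell a b h → ZMod q)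
    (i : Fin n) (x : Fin n → F) :
    MvPolynomial (Fin n) F →ₐ[F] Polynomial (MvPolynomial (Cell a b h × ZMod q) F) :=
  aeval fun j => if j < i then Polynomial.C (G F t pos j) else
    if j = i then Polynomial.X else Polynomial.C (C (x j))

/-- **The hybrid argument.** -/
theorem exists_hybrid [CharZero F] {n t : ℕ} (pos : Cell a b h → ZMod q)
    {f : MvPolynomial (Fin n) F} (hf : f ≠ 0)
    (h0 : aeval (fun j : Fin n => G F t pos j) f = 0) :
    ∃ (i : Fin n) (x : Fin n → F), sub F t pos i x f ≠ 0 ∧
      (sub F t pos i x f).eval (G F t pos i) = 0 := by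
  classical
  let H : ℕ → (Fin n → F) → MvPolynomial (Cell a b h × ZMod q) F := fun k x =>
    aeval (fun j : Fin n => if (j : ℕ) < k then G F t pos j else C (x j)) f
  have hn : ∃ k, ∀ x, H k x = 0 := ⟨n, fun x => by
    rw [← h0]
    simp only [H]
    congr 1
    congr 1
    funext j
    rw [if_pos j.2]⟩
  have hk := Nat.find_spec hn
  set k := Nat.find hn with hkdef
  have hk0 : k ≠ 0 := by
    intro hk0
    apply hf
    refine MvPolynomial.funext fun x => ?_
    have h1 := hk x
    rw [hk0] at h1
    simp only [H, Nat.not_lt_zero, if_false] at h1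
    have h2 := congrArg (eval (fun _ => (0 : F))) h1
    have h3 : eval (fun _ => (0 : F)) (aeval (fun j : Fin n => (C (x j) :
        MvPolynomial (Cell a b h × ZMod q) F)) f) = eval x f := by
      rw [← MvPolynomial.coe_aeval_eq_eval, ← MvPolynomial.coe_aeval_eq_eval]
      change (aeval (fun _ => (0 : F))) ((aeval (fun j : Fin n => (C (x j) :
        MvPolynomial (Cell a b h × ZMod q) F))) f) = (aeval x) f
      rw [MvPolynomial.comp_aeval_apply]
      congr 1
      congr 1
      funext j
      rw [algHom_C]
      rfl
    rw [h3, map_zero] at h2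
    rw [h2, map_zero]
  have hkn : k ≤ n := Nat.find_min' hn fun x => by
    rw [← h0]
    simp only [H]
    congr 1
    congr 1
    funext j
    rw [if_pos j.2]
  obtain ⟨x, hx⟩ : ∃ x, H (k - 1) x ≠ 0 := by
    by_contra hcon
    push Not at hcon
    exact Nat.find_min hn (show k - 1 < Nat.find hn by omega) hcon
  have hx' := hk x
  let i : Fin n := ⟨k - 1, by omega⟩
  have hev : ∀ y : MvPolynomial (Cell a b h × ZMod q) F, (sub F t pos i x f).eval y =
      aeval (fun j : Fin n => if j < i then G F t pos j else if j = i then y else C (x j)) f := by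
    intro y
    rw [← Polynomial.coe_aeval_eq_eval]
    have h1 : ((Polynomial.aeval y : Polynomial (MvPolynomial (Cell a b h × ZMod q) F) →ₐ[
        MvPolynomial (Cell a b h × ZMod q) F] _).restrictScalars F).comp (sub F t pos i x) =
        aeval (fun j : Fin n => if j < i then G F t pos j else if j = i then y else C (x j)) := by
      refine MvPolynomial.algHom_ext fun j => ?_
      rw [AlgHom.comp_apply, sub, aeval_X, aeval_X, AlgHom.restrictScalars_apply]
      by_cases hj : j < i
      · rw [if_pos hj, if_pos hj, Polynomial.aeval_C]; rfl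
      · rw [if_neg hj, if_neg hj]
        by_cases hj' : j = i
        · rw [if_pos hj', if_pos hj', Polynomial.aeval_X]
        · rw [if_neg hj', if_neg hj', Polynomial.aeval_C]; rfl
    exact congrFun (congrArg DFunLike.coe h1) f
  refine ⟨i, x, fun h => hx ?_, ?_⟩
  · have h1 := hev (C (x i))
    rw [h, Polynomial.eval_zero] at h1
    rw [h1]
    simp only [H]
    congr 1
    congr 1
    funext j
    by_cases hj : j < i
    · rw [if_pos hj, if_pos (show (j : ℕ) < k - 1 from hj)]
    · rw [if_neg hj, if_neg (show ¬ (j : ℕ) < k - 1 from hj)]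
      by_cases hj' : j = i
      · rw [if_pos hj', hj']
      · rw [if_neg hj']
  · rw [hev, ← hx']
    simp only [H]
    congr 1
    congr 1
    funext j
    by_cases hj : j < i
    · have h1 : (j : ℕ) < k - 1 := hj
      rw [if_pos hj, if_pos (show (j : ℕ) < k by omega)]
    · rw [if_neg hj]
      have h1 : ¬ (j : ℕ) < k - 1 := hj
      by_cases hj' : j = i
      · rw [if_pos hj', hj', if_pos (show ((i : Fin n) : ℕ) < k from by
          show k - 1 < k
          omega)]
      · rw [if_neg hj', if_neg]
        intro h2
        apply hj'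
        apply Fin.ext
        show (j : ℕ) = k - 1
        omega

end Pool.Agent.Y531.Hit
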