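import Pool.Agent.Y531.Hit.Rank

/-!
# The parameters, and the hitting set
-/

set_option autoImplicit false
set_option linter.unusedSectionVars false
set_option maxHeartbeats 1000000

namespace Pool.Agent.Y531.Hit

open Finset MvPolynomial Pool.Agent.W942 Pool.Agent.Y531

/-- The number of edges between two vertices. -/
def blockLen (a b k N : ℕ) : ℕ := Nat.log (4 ^ (a * k)) (N / (2 * (a + b) ^ 2) ^ k)

/-- **The generator does not vanish.** -/
theorem generator_hits (Δ k : ℕ) (hk : k ≠ 0) : ∃ a b q₀ N₀ : ℕ, 0 < a ∧ 0 < b ∧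
    ∀ N, N₀ ≤ N → ∀ q : ℕ, q.Prime → Fintype.card (Cell a b (blockLen a b k N)) ≤ q →
    q ≤ 2 * Fintype.card (Cell a b (blockLen a b k N)) →
    (Fintype.card (Cell a b (blockLen a b k N)) * q) ^ k ≤ N ∧
    ∀ pos : Cell a b (blockLen a b k N) → ZMod q, Function.Injective pos →
    ∀ (F : Type*) [Field F] [CharZero F] (n s m : ℕ), n ≤ N → s ≤ N → m ^ q₀ ≤ N →
    ∀ (C : Circuit F n s Δ m) (f : MvPolynomial (Fin n) F), C.Computes f → f ≠ 0 →
      aeval (fun j : Fin n => G F (2 * k + 1) pos j) f ≠ 0 := by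
  set w := 2 * Δ + 5 with hw
  obtain ⟨a, b, T, ha, hb, hba, hT0, hTm, hTK, hsc⟩ := exists_thresholds (2 * Δ + 4) (2 * k * w) 2
  set d := a + b with hd
  have hd0 : 0 < d := by omega
  set t := 2 * k + 1 with ht
  set C₁ : ℕ := d * 2 ^ (d ^ 2) * (3 * (6 ^ (Δ + 1) * 2 ^ (2 * d ^ 2 * (Δ + 1)) *
    2 ^ (d * (Δ + 1)) * ((t + 1) ^ d * 2 ^ (d ^ 2)))) with hC₁
  set C₂ : ℕ := (2 * d ^ 2) ^ k * 4 ^ (a * k) with hC₂
  refine ⟨a, b, d * (Δ + 1), C₂ ^ w * C₁ + C₂ ^ (2 * k + 1) + C₂ + 1, ha, hb, ?_⟩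
  intro N hn q hq hq1 hq2
  obtain ⟨hna, hnb, hnc, hn1⟩ : C₂ ^ w * C₁ < N ∧ C₂ ^ (2 * k + 1) < N ∧ C₂ < N ∧ 1 ≤ N := by
    have h1 : ∀ x y z : ℕ, x + y + z + 1 ≤ N → x < N ∧ y < N ∧ z < N ∧ 1 ≤ N := by
      intro x y z hxyz
      omega
    exact h1 _ _ _ hn
  set h := blockLen a b k N with hh
  rw [blockLen, ← hd] at hh
  set M := Fintype.card (Cell a b h) with hM
  have hMc : M = b * 2 ^ (a * h) + a * 2 ^ (b * h) := card_cell a b h
  have hd2 : 0 < (2 * d ^ 2) ^ k := by positivity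
  have h4a : 1 < 4 ^ (a * k) := Nat.one_lt_pow (by positivity) (by norm_num)
  have hC₂' : (2 * d ^ 2) ^ k ≤ C₂ := Nat.le_mul_of_pos_right _ (by positivity)
  have hnd : N / (2 * d ^ 2) ^ k ≠ 0 := by
    have : 0 < N / (2 * d ^ 2) ^ k := Nat.div_pos (by omega) hd2
    omega
  have hlow : (4 ^ (a * k)) ^ h ≤ N / (2 * d ^ 2) ^ k := by
    rw [hh]
    exact Nat.pow_log_le_self _ hnd
  have hup : N / (2 * d ^ 2) ^ k < (4 ^ (a * k)) ^ (h + 1) := by
    rw [hh]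
    exact Nat.lt_pow_succ_log_self h4a _
  have hM1 : M ≤ d * 2 ^ (a * h) := by
    have h1 : 2 ^ (b * h) ≤ 2 ^ (a * h) :=
      Nat.pow_le_pow_right (by norm_num) (Nat.mul_le_mul_right h hba)
    have h3 : a * 2 ^ (b * h) ≤ a * 2 ^ (a * h) := Nat.mul_le_mul_left a h1
    have h4 : d * 2 ^ (a * h) = b * 2 ^ (a * h) + a * 2 ^ (a * h) := by rw [hd]; ring
    omega
  have hM2 : 2 ^ (a * h) ≤ M := by
    rw [hMc]
    exact (Nat.le_mul_of_pos_left _ hb).trans (Nat.le_add_right _ _)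
  have hseed : (M * q) ^ k ≤ N := by
    have h1 : M * q ≤ 2 * d ^ 2 * 4 ^ (a * h) := by
      calc M * q ≤ M * (2 * M) := Nat.mul_le_mul_left _ hq2
        _ ≤ (d * 2 ^ (a * h)) * (2 * (d * 2 ^ (a * h))) := by gcongr
        _ = 2 * d ^ 2 * 4 ^ (a * h) := by
            have : (4:ℕ) = 2 * 2 := rfl
            rw [this, mul_pow]; ring
    calc (M * q) ^ k ≤ (2 * d ^ 2 * 4 ^ (a * h)) ^ k := Nat.pow_le_pow_left h1 k
      _ = (2 * d ^ 2) ^ k * (4 ^ (a * k)) ^ h := by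
          rw [mul_pow, ← pow_mul, ← pow_mul]
          congr 2
          ring
      _ ≤ (2 * d ^ 2) ^ k * (N / (2 * d ^ 2) ^ k) := Nat.mul_le_mul_left _ hlow
      _ ≤ N := Nat.mul_div_le N _
  refine ⟨hseed, ?_⟩
  intro pos hpos F _ _ n s m hnN hs hm C f hf hf0 hzero
  have hnC : N < C₂ * (2 ^ (a * h)) ^ (2 * k) := by
    rw [Nat.div_lt_iff_lt_mul hd2] at hup
    refine hup.trans_le (le_of_eq ?_)
    have h1 : (4 ^ (a * k)) ^ h = (2 ^ (a * h)) ^ (2 * k) := by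
      have : (4:ℕ) = 2 ^ 2 := rfl
      rw [this, ← pow_mul, ← pow_mul, ← pow_mul]
      congr 1
      ring
    rw [pow_succ, h1, hC₂]
    ring
  have hnq : N ≤ q ^ t := by
    have h1 : C₂ ≤ 2 ^ (a * h) := by
      by_contra hcon
      rw [not_le] at hcon
      have h2 : N < C₂ ^ (2 * k + 1) := by
        rw [pow_succ']
        exact hnC.trans_le (Nat.mul_le_mul_left _ (Nat.pow_le_pow_left hcon.le _))
      omega
    calc N ≤ C₂ * (2 ^ (a * h)) ^ (2 * k) := hnC.le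
      _ ≤ 2 ^ (a * h) * (2 ^ (a * h)) ^ (2 * k) := Nat.mul_le_mul_right _ h1
      _ = (2 ^ (a * h)) ^ t := by rw [ht, pow_succ']
      _ ≤ q ^ t := Nat.pow_le_pow_left (hM2.trans hq1) t
  have hmain := hit_rank (L := 2 * k * w) (T := T) hq ha hT0 hTm hTK (fun k hk => hsc h k hk)
    pos hpos (hnN.trans hnq) C hf hf0 hzero
  rw [← hd] at hmain
  -- the cost
  have hNR : (1:ℝ) ≤ N := by exact_mod_cast hn1
  have hnR : (n:ℝ) ≤ N := by exact_mod_cast hnN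
  have hsR : (s:ℝ) ≤ N := by exact_mod_cast hs
  have hs' : (s : ℝ) + 1 ≤ 2 * (N:ℝ) := by linarith
  have hns : (n : ℝ) + s + 1 ≤ 3 * (N:ℝ) := by linarith
  have hs0 : (0:ℝ) ≤ s := Nat.cast_nonneg s
  have hm0 : (0:ℝ) ≤ m := Nat.cast_nonneg m
  have hn0 : (0:ℝ) ≤ n := Nat.cast_nonneg n
  have hm' : (((m : ℝ) + 1) ^ d) ^ (Δ + 1) ≤ 2 ^ (d * (Δ + 1)) * N := by
    rw [← pow_mul]
    by_cases hm0 : m = 0
    · rw [hm0, Nat.cast_zero, zero_add, one_pow]
      exact one_le_mul_of_one_le_of_one_le (one_le_pow₀ (by norm_num)) hNR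
    · have hm1 : (1:ℝ) ≤ m := by exact_mod_cast Nat.one_le_iff_ne_zero.2 hm0
      have h1 : (m : ℝ) + 1 ≤ 2 * m := by linarith
      have h2 : ((m:ℝ)) ^ (d * (Δ + 1)) ≤ N := by exact_mod_cast hm
      calc ((m : ℝ) + 1) ^ (d * (Δ + 1)) ≤ (2 * m) ^ (d * (Δ + 1)) := by gcongr
        _ = 2 ^ (d * (Δ + 1)) * (m:ℝ) ^ (d * (Δ + 1)) := mul_pow _ _ _
        _ ≤ _ := by gcongr
  have hcost : cost n s m d ^ (Δ + 1) ≤ 6 ^ (Δ + 1) * 2 ^ (2 * d ^ 2 * (Δ + 1)) *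
      2 ^ (d * (Δ + 1)) * ((N:ℝ) ^ (2 * (Δ + 1)) * N) := by
    have h1 : cost n s m d ^ (Δ + 1) = (((n : ℝ) + s + 1) * ((s : ℝ) + 1)) ^ (Δ + 1) *
        2 ^ (2 * d ^ 2 * (Δ + 1)) * (((m : ℝ) + 1) ^ d) ^ (Δ + 1) := by
      rw [cost, pow_mul 2 (2 * d ^ 2) (Δ + 1), ← mul_pow, ← mul_pow]
      congr 1
      ring
    rw [h1]
    have h2 : (((n : ℝ) + s + 1) * ((s : ℝ) + 1)) ^ (Δ + 1) ≤
        6 ^ (Δ + 1) * (N:ℝ) ^ (2 * (Δ + 1)) := by
      have h3 : ((n : ℝ) + s + 1) * ((s : ℝ) + 1) ≤ 6 * (N:ℝ) ^ 2 := by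
        calc ((n : ℝ) + s + 1) * ((s : ℝ) + 1) ≤ (3 * (N:ℝ)) * (2 * (N:ℝ)) := by
              gcongr
          _ = _ := by ring
      refine (pow_le_pow_left₀ (by positivity) h3 (Δ + 1)).trans (le_of_eq ?_)
      rw [mul_pow, ← pow_mul]
    calc (((n : ℝ) + s + 1) * ((s : ℝ) + 1)) ^ (Δ + 1) *
        2 ^ (2 * d ^ 2 * (Δ + 1)) * (((m : ℝ) + 1) ^ d) ^ (Δ + 1)
        ≤ (6 ^ (Δ + 1) * (N:ℝ) ^ (2 * (Δ + 1))) *
        2 ^ (2 * d ^ 2 * (Δ + 1)) * (2 ^ (d * (Δ + 1)) * N) := by gcongr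
      _ = _ := by ring
  have hRHS : (2:ℝ) ^ (a * h * (2 * k * w)) ≤ C₁ * (N:ℝ) ^ (w - 1) := by
    refine hmain.trans ?_
    have h3 : w - 1 = 1 + (2 * (Δ + 1) + 1) := by omega
    have h4 : (N:ℝ) ^ (w - 1) = N * ((N:ℝ) ^ (2 * (Δ + 1)) * N) := by
      rw [h3, pow_add, pow_add (N:ℝ) (2 * (Δ + 1)) 1, pow_one]
    rw [h4, hC₁]
    have h5 : (a:ℝ) + b = d := by rw [hd]; push_cast; ring
    rw [h5]
    push_cast
    have h6 : 0 ≤ cost n s m d := zero_le_one.trans (one_le_cost n s m d)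
    have h7 : 0 ≤ cost n s m d ^ (Δ + 1) * (((t:ℝ) + 1) ^ d * 2 ^ d ^ 2) := by positivity
    calc (d:ℝ) * 2 ^ d ^ 2 * (((n:ℝ) + s + 1) * (cost n s m d ^ (Δ + 1) *
          (((t:ℝ) + 1) ^ d * 2 ^ d ^ 2)))
        ≤ (d:ℝ) * 2 ^ d ^ 2 * ((3 * (N:ℝ)) * ((6 ^ (Δ + 1) *
          2 ^ (2 * d ^ 2 * (Δ + 1)) * 2 ^ (d * (Δ + 1)) *
          ((N:ℝ) ^ (2 * (Δ + 1)) * N)) * (((t:ℝ) + 1) ^ d * 2 ^ d ^ 2))) := by
          gcongr
      _ = _ := by ring
  have hnR2 : (N:ℝ) < C₂ * ((2:ℝ) ^ (a * h)) ^ (2 * k) := by exact_mod_cast hnC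
  have hw0 : w ≠ 0 := by omega
  have hfin : (N:ℝ) ^ w < (C₂:ℝ) ^ w * C₁ * (N:ℝ) ^ (w - 1) := by
    calc (N:ℝ) ^ w < (C₂ * ((2:ℝ) ^ (a * h)) ^ (2 * k)) ^ w :=
          pow_lt_pow_left₀ hnR2 (Nat.cast_nonneg N) hw0
      _ = (C₂:ℝ) ^ w * 2 ^ (a * h * (2 * k * w)) := by
          rw [mul_pow, ← pow_mul, ← pow_mul]
      _ ≤ (C₂:ℝ) ^ w * (C₁ * (N:ℝ) ^ (w - 1)) :=
          mul_le_mul_of_nonneg_left hRHS (by positivity)
      _ = _ := by ring
  have hfin2 : (N:ℝ) < (C₂:ℝ) ^ w * C₁ := by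
    have h1 : (N:ℝ) ^ w = N * (N:ℝ) ^ (w - 1) := by
      rw [← pow_succ']; congr 1
    rw [h1] at hfin
    exact lt_of_mul_lt_mul_right hfin (by positivity)
  have hfin3 : N < C₂ ^ w * C₁ := by exact_mod_cast hfin2
  exact absurd hfin3 (not_lt.2 hna.le)

/-- Each seed variable occurs in the generator with degree at most one. -/
theorem degreeOf_G {a b h q t : ℕ} {F : Type*} [Field F] (pos : Cell a b h → ZMod q) (j : ℕ)
    (x : Cell a b h × ZMod q) : (G F t pos j).degreeOf x ≤ 1 := by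
  classical
  rw [G, gen, wordSum_eq]
  refine (degreeOf_sum_le x _ _).trans (Finset.sup_le fun w _ => ?_)
  refine (degreeOf_prod_le x _ _).trans ?_
  rw [Finset.sum_eq_single (lab x.1)]
  · rw [degreeOf_X]
    split_ifs <;> omega
  · intro l _ hl
    rw [degreeOf_X, if_neg]
    intro h
    apply hl
    rw [h, lab_cell]
  · intro h
    exact absurd (Finset.mem_univ _) h

/-- Composition with the generator does not increase the degree in a seed variable. -/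
theorem degreeOf_comp {σ τ F : Type*} [Field F] (G : σ → MvPolynomial τ F) (x : τ)
    (hG : ∀ j, (G j).degreeOf x ≤ 1) (g : MvPolynomial σ F) :
    (aeval G g).degreeOf x ≤ g.totalDegree := by
  classical
  rw [aeval_def, eval₂_eq]
  refine (degreeOf_sum_le x _ _).trans (Finset.sup_le fun m hm => ?_)
  refine (degreeOf_mul_le x _ _).trans ?_
  have h1 : (algebraMap F (MvPolynomial τ F) (coeff m g)).degreeOf x = 0 := degreeOf_C _ _
  rw [h1, zero_add]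
  refine (degreeOf_prod_le x _ _).trans ?_
  have h2 : ∀ i ∈ m.support, (G i ^ m i).degreeOf x ≤ m i := by
    intro i _
    refine (degreeOf_pow_le x _ _).trans ?_
    calc m i * (G i).degreeOf x ≤ m i * 1 := Nat.mul_le_mul_left _ (hG i)
      _ = m i := mul_one _
  refine (Finset.sum_le_sum h2).trans ?_
  exact le_totalDegree hm

/-- **The hitting set.** -/
theorem exists_hit {a b h q t n D : ℕ} [NeZero q] {F : Type*} [Field F] [CharZero F]
    (pos : Cell a b h → ZMod q) {g : MvPolynomial (Fin n) F} (hg : g.totalDegree ≤ D)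
    (h0 : aeval (fun j : Fin n => G F t pos j) g ≠ 0) :
    ∃ y : Cell a b h × ZMod q → ℕ, (∀ x, y x ≤ D) ∧
      eval (fun j : Fin n => ((gen q t pos y j : ℕ) : F)) g ≠ 0 := by
  classical
  by_contra hcon
  push Not at hcon
  apply h0
  have : Finite (Cell a b h × ZMod q) := inferInstance
  refine eq_zero_of_eval_zero_at_prod_finset _
    (fun _ => (Finset.range (D + 1)).image (fun i : ℕ => (i : F))) ?_ ?_
  · intro x
    rw [Finset.card_image_of_injective _ Nat.cast_injective, Finset.card_range]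
    exact Nat.lt_succ_of_le ((degreeOf_comp (fun j : Fin n => G F t pos (j : ℕ)) x
      (fun j => degreeOf_G pos (j : ℕ) x) g).trans hg)
  · intro x hx
    have h1 : ∀ i, ∃ y : ℕ, y ≤ D ∧ (y : F) = x i := by
      intro i
      obtain ⟨y, hy, hy'⟩ := Finset.mem_image.1 (hx i)
      exact ⟨y, Nat.lt_succ_iff.1 (Finset.mem_range.1 hy), hy'⟩
    choose y hy hy' using h1
    have h2 := hcon y hy
    rw [← h2]
    have h3 : eval x (aeval (fun j : Fin n => G F t pos j) g) =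
        eval (fun j : Fin n => eval x (G F t pos (j : ℕ))) g := by
      rw [← MvPolynomial.coe_aeval_eq_eval, ← MvPolynomial.coe_aeval_eq_eval]
      change (aeval x) ((aeval (fun j : Fin n => G F t pos (j : ℕ))) g) =
        (aeval fun j : Fin n => (aeval x) (G F t pos (j : ℕ))) g
      rw [MvPolynomial.comp_aeval_apply]
    rw [h3]
    congr 1
    congr 1
    funext j
    have h4 : eval x (G F t pos (j : ℕ)) = wordSum fun c => x (c, line q t pos j c) := by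
      rw [G, gen, map_wordSum (eval x)]
      congr 1
      funext c
      rw [eval_X]
    rw [h4, gen]
    have h5 := map_wordSum (Nat.castRingHom F) (fun c => y (c, line q t pos (j : ℕ) c))
    have h6 : ((wordSum fun c => y (c, line q t pos (j : ℕ) c) : ℕ) : F) =
        wordSum fun c => ((y (c, line q t pos (j : ℕ) c) : ℕ) : F) := h5
    rw [h6]
    congr 1
    funext c
    rw [hy']

end Pool.Agent.Y531.Hit
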