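import Pool.Agent.Y531.Hit.Leaf

/-!
# The rank inequality for a circuit which vanishes on the generator
-/

set_option autoImplicit false
set_option linter.unusedSectionVars false
set_option maxHeartbeats 1000000

namespace Pool.Agent.Y531.Hit

open Finset MvPolynomial Pool.Agent.W942 Pool.Agent.Y531

variable {a b h q : ℕ} {F : Type*} [Field F]

theorem algMap_eq (r : F) : algebraMap F (LaurentSeries F) r = HahnSeries.C r := by
  rw [HahnSeries.algebraMap_apply', PowerSeries.algebraMap_apply, Algebra.algebraMap_self_apply]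
  exact HahnSeries.ofPowerSeries_C r

/-- Laurent series contain the power series. -/
noncomputable def psHom (F : Type*) [Field F] : PowerSeries F →ₐ[F] LaurentSeries F :=
  { HahnSeries.ofPowerSeries ℤ F with
    commutes' := fun r => by
      show HahnSeries.ofPowerSeries ℤ F (algebraMap F (PowerSeries F) r) = _
      rw [HahnSeries.algebraMap_apply'] }

theorem psHom_coe : ((psHom F : PowerSeries F →ₐ[F] LaurentSeries F) :
    PowerSeries F →+* LaurentSeries F) = HahnSeries.ofPowerSeries ℤ F := rfl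

theorem eval₂_ne_zero {p : Polynomial F} (hp : p ≠ 0) (g : F) :
    p.eval₂ (algebraMap F (LaurentSeries F)) (HahnSeries.C g + tau F) ≠ 0 := by
  let c : Polynomial F →+* LaurentSeries F :=
    (HahnSeries.ofPowerSeries ℤ F).comp (Polynomial.coeToPowerSeries.ringHom)
  have hcC : ∀ r : F, c (Polynomial.C r) = algebraMap F (LaurentSeries F) r := by
    intro r
    rw [RingHom.comp_apply, Polynomial.coeToPowerSeries.ringHom_apply, Polynomial.coe_C,
      HahnSeries.ofPowerSeries_C, algMap_eq]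
  have hcX : c Polynomial.X = tau F := by
    rw [RingHom.comp_apply, Polynomial.coeToPowerSeries.ringHom_apply, Polynomial.coe_X,
      HahnSeries.ofPowerSeries_X]
    rfl
  have h1 : p.eval₂ (algebraMap F (LaurentSeries F)) (HahnSeries.C g + tau F) =
      c (p.comp (Polynomial.X + Polynomial.C g)) := by
    rw [Polynomial.comp, Polynomial.hom_eval₂, map_add, hcX, hcC, algMap_eq, add_comm]
    congr 1
    refine RingHom.ext fun r => ?_
    rw [RingHom.comp_apply, hcC]
  rw [h1]
  have hinj : Function.Injective c := by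
    intro x y hxy
    exact Polynomial.coe_injective F (HahnSeries.ofPowerSeries_injective hxy)
  intro h2
  have h3 : p.comp (Polynomial.X + Polynomial.C g) = 0 := hinj (by rw [h2, map_zero])
  exact (Polynomial.comp_X_add_C_ne_zero_iff.2 hp) h3

theorem isUnit_eval₂ {p : Polynomial F} {g : F} (hp : p.eval g ≠ 0) :
    IsUnit (p.eval₂ (algebraMap F (PowerSeries F)) (PowerSeries.C g + PowerSeries.X)) := by
  rw [PowerSeries.isUnit_iff_constantCoeff, isUnit_iff_ne_zero, Polynomial.hom_eval₂]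
  have h1 : (PowerSeries.constantCoeff (R := F)).comp (algebraMap F (PowerSeries F)) =
      RingHom.id F := by
    refine RingHom.ext fun r => ?_
    rw [RingHom.comp_apply, PowerSeries.algebraMap_apply, Algebra.algebraMap_self_apply,
      PowerSeries.constantCoeff_C, RingHom.id_apply]
  rw [h1, map_add, PowerSeries.constantCoeff_C, PowerSeries.constantCoeff_X, add_zero]
  exact hp

/-- Cost of one layer of gates. -/
noncomputable def cost (n s m d : ℕ) : ℝ :=
  ((n : ℝ) + s + 1) * (((s : ℝ) + 1) * 2 ^ (2 * d ^ 2) * ((m : ℝ) + 1) ^ d)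

theorem one_le_cost (n s m d : ℕ) : 1 ≤ cost n s m d := by
  rw [cost]
  have hn : (0:ℝ) ≤ n := Nat.cast_nonneg n
  have hs : (0:ℝ) ≤ s := Nat.cast_nonneg s
  have hm : (0:ℝ) ≤ m := Nat.cast_nonneg m
  exact one_le_mul_of_one_le_of_one_le (by linarith) (one_le_mul_of_one_le_of_one_le
    (one_le_mul_of_one_le_of_one_le (by linarith) (one_le_pow₀ (by norm_num)))
    (one_le_pow₀ (by linarith)))

/-- **The rank inequality.** -/
theorem hit_rank [CharZero F] {n s Δ m t L : ℕ} {T : ℕ → ℕ} (hq : q.Prime)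
    (ha : 0 < a) (hT0 : T 0 = 2) (hTm : Monotone T) (hTK : T (2 * Δ + 4) ≤ a + b)
    (hscale : ∀ k, k < 2 * Δ + 4 → ∃ z : ℝ, 0 ≤ z ∧ z ≤ 1 ∧ NumScale a b h (T k) z ∧
      z ^ (T (k + 1)) ≤ ((2:ℝ) ^ (a * h * L))⁻¹)
    (pos : Cell a b h → ZMod q) (hpos : Function.Injective pos) (hnq : n ≤ q ^ t)
    (C : Circuit F n s Δ m) {f : MvPolynomial (Fin n) F} (hf : C.Computes f) (hf0 : f ≠ 0)
    (hzero : aeval (fun j : Fin n => G F t pos j) f = 0) :
    (2:ℝ) ^ (a * h * L) ≤ ((a:ℝ) + b) * 2 ^ ((a + b) ^ 2) * (((n:ℝ) + s + 1) *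
      (cost n s m (a + b) ^ (Δ + 1) * (((t:ℝ) + 1) ^ (a + b) * 2 ^ ((a + b) ^ 2)))) := by
  classical
  set K := LaurentSeries F with hK
  have hcard : Fintype.card (Fin b ⊕ Fin a) = a + b := by
    rw [Fintype.card_sum, Fintype.card_fin, Fintype.card_fin, add_comm]
  have hgates := fun i' => gate_good (K := K) (ι := Fin b ⊕ Fin a) (U := Ed a b h → Bool)
    (V := Ed a b h → Bool) (Φ := bitFrame a b h) (C.isGate i')
  choose Z hZ0 hgood using hgates
  -- the hybrid argument, for the product of all polynomials which must not vanish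
  obtain ⟨i, x, f', hf', hfs, hZs, hP0, hPr⟩ : ∃ (i : Fin n) (x : Fin n → F)
      (f' : MvPolynomial (Fin n) F), (f' = f ∨ ∃ i', f' ∈ Z i') ∧
      sub F t pos i x f ≠ 0 ∧ (∀ i', ∀ g ∈ Z i', sub F t pos i x g ≠ 0) ∧
      sub F t pos i x f' ≠ 0 ∧ (sub F t pos i x f').eval (G F t pos i) = 0 := by
    have hprod0 : f * ∏ i', ∏ g ∈ Z i', g ≠ 0 :=
      mul_ne_zero hf0 (Finset.prod_ne_zero_iff.2 fun i' _ =>
        Finset.prod_ne_zero_iff.2 fun g hg => hZ0 i' g hg)
    obtain ⟨i, x, h1, h2⟩ := exists_hybrid pos hprod0 (by rw [map_mul, hzero, zero_mul])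
    have h3 : sub F t pos i x (f * ∏ i', ∏ g ∈ Z i', g) =
        sub F t pos i x f * ∏ i', ∏ g ∈ Z i', sub F t pos i x g := by
      rw [map_mul, map_prod]
      congr 1
      exact Finset.prod_congr rfl fun i' _ => map_prod _ _ _
    rw [h3] at h1 h2
    have h4 : ∀ i', ∀ g ∈ Z i', sub F t pos i x g ≠ 0 := fun i' g hg =>
      Finset.prod_ne_zero_iff.1 (Finset.prod_ne_zero_iff.1 (right_ne_zero_of_mul h1) i'
        (Finset.mem_univ i')) g hg
    rw [Polynomial.eval_mul, mul_eq_zero] at h2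
    rcases h2 with h2 | h2
    · exact ⟨i, x, f, Or.inl rfl, left_ne_zero_of_mul h1, h4, left_ne_zero_of_mul h1, h2⟩
    · rw [Polynomial.eval_prod, Finset.prod_eq_zero_iff] at h2
      obtain ⟨i', _, h2⟩ := h2
      rw [Polynomial.eval_prod, Finset.prod_eq_zero_iff] at h2
      obtain ⟨g, hg, h2⟩ := h2
      exact ⟨i, x, g, Or.inr ⟨i', hg⟩, left_ne_zero_of_mul h1, h4, h4 i' g hg, h2⟩
  set P := sub F t pos i x f' with hP
  set G' := G F t pos (i : ℕ) with hG'
  obtain ⟨Q, hQ, hQnd⟩ := Polynomial.exists_eq_pow_rootMultiplicity_mul_and_not_dvd P hP0 G'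
  set r := P.rootMultiplicity G' with hr
  have hr0 : r ≠ 0 := by
    have := (Polynomial.rootMultiplicity_pos hP0).2 hPr
    omega
  have hQev : Q.eval G' ≠ 0 := fun h => hQnd (Polynomial.dvd_iff_isRoot.2 h)
  -- the base point
  set D : MvPolynomial (Cell a b h × ZMod q) F := Q.eval G' * ∏ i', ∏ g ∈ Z i',
    (sub F t pos i x g).leadingCoeff with hD
  have hD0 : D ≠ 0 := by
    refine mul_ne_zero hQev (Finset.prod_ne_zero_iff.2 fun i' _ =>
      Finset.prod_ne_zero_iff.2 fun g hg => ?_)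
    exact Polynomial.leadingCoeff_ne_zero.2 (hZs i' g hg)
  obtain ⟨A', hA'⟩ := exists_int_point _ hD0
  set A : Cell a b h × ZMod q → F := fun y => (A' y : F) with hA
  rw [hD, map_mul, map_prod] at hA'
  have hA1 : eval A (Q.eval G') ≠ 0 := left_ne_zero_of_mul hA'
  have hA2 : ∀ i', ∀ g ∈ Z i', (sub F t pos i x g).map (eval A) ≠ 0 := by
    intro i' g hg h0
    have h1 := Finset.prod_ne_zero_iff.1 (right_ne_zero_of_mul hA') i' (Finset.mem_univ i')
    rw [map_prod] at h1
    have h2 := Finset.prod_ne_zero_iff.1 h1 g hg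
    apply h2
    have h3 := congrArg (fun p => Polynomial.coeff p (sub F t pos i x g).natDegree) h0
    simp only [Polynomial.coeff_map, Polynomial.coeff_zero] at h3
    exact h3
  set Lc : Cell a b h → ZMod q := line q t pos (i : ℕ) with hLc
  set g₀ : F := eval A G' with hg₀
  set ζ : K := HahnSeries.C g₀ + tau F with hζ
  -- the expansion
  let Θ : MvPolynomial (Fin n) F →ₐ[F]
      SF (Fin b ⊕ Fin a) ((Ed a b h → Bool) → (Ed a b h → Bool) → K) :=
    { (zHom K A Lc ζ).comp (sub F t pos i x : MvPolynomial (Fin n) F →+* _) with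
      commutes' := fun c => by
        show zHom K A Lc ζ (sub F t pos i x (algebraMap F _ c)) = _
        rw [AlgHom.commutes, Polynomial.algebraMap_apply, zHom_C]
        exact AlgHom.commutes _ _ }
  have hΘ : ∀ g, Θ g = zHom K A Lc ζ (sub F t pos i x g) := fun g => rfl
  have hΘ0 : ∀ g, Θ g ∅ = algebraMap K ((Ed a b h → Bool) → (Ed a b h → Bool) → K)
      (((sub F t pos i x g).map (eval A)).eval₂ (algebraMap F K) ζ) := by
    intro g
    rw [hΘ, zHom_empty]
    rfl
  have hZc : ∀ g, ∃ c : K, Θ g ∅ = algebraMap K ((Ed a b h → Bool) → (Ed a b h → Bool) → K) c :=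
    fun g => ⟨_, hΘ0 g⟩
  have hZ : ∀ i', ∀ g ∈ Z i', Θ g ∅ ≠ 0 := by
    intro i' g hg h0
    rw [hΘ0] at h0
    exact eval₂_ne_zero (hA2 i' g hg) g₀ (congrFun (congrFun h0 (fun _ => true)) (fun _ => true))
  set ϑ : ℝ := ((2:ℝ) ^ (a * h * L))⁻¹ with hϑ
  have hϑ0 : 0 < ϑ := by positivity
  set κ : ℝ := ((t:ℝ) + 1) ^ (a + b) * 2 ^ ((a + b) ^ 2) with hκ
  have ht0 : (0:ℝ) ≤ t := Nat.cast_nonneg t
  have hκ1 : 1 ≤ κ := one_le_mul_of_one_le_of_one_le (one_le_pow₀ (by linarith))
    (one_le_pow₀ (by norm_num))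
  -- the variables
  have hvar : ∀ j : Fin n, Good (bitFrame a b h) (T 1) (κ * ϑ) (Θ (MvPolynomial.X j)) := by
    intro j
    have hT1 : 1 ≤ T 1 := by
      have := hTm (Nat.zero_le 1)
      omega
    rw [hΘ, sub, aeval_X]
    by_cases hj : j < i
    · rw [if_pos hj, zHom_C]
      obtain ⟨z, hz0, hz1, hzs, hzT⟩ := hscale 0 (by omega)
      rw [hT0] at hzs
      refine leaf_good A Lc pos (j : ℕ) ?_ hz0 hz1 hϑ0.le (scale_of_num hzs) hzT
      refine line_meet hq pos hpos (lt_of_lt_of_le j.2 hnq) (lt_of_lt_of_le i.2 hnq) ?_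
      intro hji
      exact absurd hji (ne_of_lt hj)
    · rw [if_neg hj]
      by_cases hj' : j = i
      · rw [if_pos hj', zHom_X]
        exact Good.cst hT1 (by positivity) _
      · rw [if_neg hj', zHom_C, thetaHom, algHom_C]
        exact Good.cst hT1 (by positivity) (algebraMap F K (x j))
  set c := cost n s m (a + b) with hc
  have hc1 : 1 ≤ c := one_le_cost n s m (a + b)
  have hn0 : (0:ℝ) ≤ n := Nat.cast_nonneg n
  have hs0 : (0:ℝ) ≤ s := Nat.cast_nonneg s
  have hT1 : ∀ k, 1 ≤ T k := fun k => by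
    have := hTm (Nat.zero_le k)
    omega
  -- all gates
  have key : ∀ l : ℕ, l ≤ Δ → ∀ i', C.depth i' = l →
      Good (bitFrame a b h) (T (2 * l + 3)) (c ^ (l + 1) * (κ * ϑ)) (Θ (C.g i')) ∧
      ∀ g ∈ Z i', Good (bitFrame a b h) (T (2 * l + 3)) (c ^ (l + 1) * (κ * ϑ)) (Θ g) := by
    intro l
    induction l using Nat.strong_induction_on with
    | _ l ih =>
      intro hl i' hi'
      have hXl : ϑ ≤ ((n : ℝ) + s + 1) * (c ^ l * (κ * ϑ)) := by
        have h1 : (1:ℝ) ≤ ((n : ℝ) + s + 1) * (c ^ l * κ) :=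
          one_le_mul_of_one_le_of_one_le (by linarith)
            (one_le_mul_of_one_le_of_one_le (one_le_pow₀ hc1) hκ1)
        nlinarith
      obtain ⟨z, hz0, hz1, hzs, hzT⟩ := hscale (2 * l + 1) (by omega)
      obtain ⟨z', hz0', hz1', hzs', hzT'⟩ := hscale (2 * l + 2) (by omega)
      have h2 := hgood i' Θ hZc (hZ i') (T (2 * l + 1)) (T (2 * l + 2)) (T (2 * l + 3)) z z'
        (((n : ℝ) + s + 1) * (c ^ l * (κ * ϑ))) ϑ (hTm (Nat.le_succ _)) (hTm (Nat.le_succ _))
        (hT1 _) (triv_bitFrame a b h) hz0 hz1 hz0' hz1'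
        hϑ0.le hXl (scale_of_num hzs) (scale_of_num hzs') hzT hzT' (fun g hg => by
          have h3 := lin_good (Φ := bitFrame a b h) (T := T (2 * l + 1)) (X := c ^ l * (κ * ϑ))
            (hT1 _) (by positivity) (s := s) (g := C.g)
            (p := fun i'' => C.depth i'' < C.depth i') (Θ := Θ) (fun j => by
              refine (hvar j).mono (hTm (by omega)) ?_
              exact le_mul_of_one_le_left (by positivity) (one_le_pow₀ hc1)) (fun i'' hi'' => by
              rw [hi'] at hi''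
              refine (ih (C.depth i'') hi'' (hi''.le.trans hl) i'' rfl).1.mono (hTm (by omega)) ?_
              refine mul_le_mul_of_nonneg_right ?_ (by positivity)
              exact pow_le_pow_right₀ hc1 (by omega)) hg
          refine h3.mono le_rfl ?_
          exact mul_le_mul_of_nonneg_right (by linarith) (by positivity))
      have h5 : ((s : ℝ) + 1) * 2 ^ (2 * Fintype.card (Fin b ⊕ Fin a) ^ 2) *
          ((m : ℝ) + 1) ^ Fintype.card (Fin b ⊕ Fin a) *
          (((n : ℝ) + s + 1) * (c ^ l * (κ * ϑ))) = c ^ (l + 1) * (κ * ϑ) := by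
        rw [hcard, pow_succ, hc, cost]
        ring
      rw [h5] at h2
      exact h2
  have hout : Good (bitFrame a b h) (T (2 * Δ + 3))
      (((n : ℝ) + s + 1) * (c ^ (Δ + 1) * (κ * ϑ))) (Θ f') := by
    rcases hf' with rfl | ⟨i', hi'⟩
    swap
    · refine ((key (C.depth i') (C.depth_le i') i' rfl).2 f' hi').mono (hTm ?_) ?_
      · have := C.depth_le i'
        omega
      · have h1 : c ^ (C.depth i' + 1) * (κ * ϑ) ≤ c ^ (Δ + 1) * (κ * ϑ) := by
          refine mul_le_mul_of_nonneg_right ?_ (by positivity)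
          exact pow_le_pow_right₀ hc1 (Nat.succ_le_succ (C.depth_le i'))
        refine h1.trans (le_mul_of_one_le_left (by positivity) (by linarith))
    have h1 : {f | ∃ i', True ∧ f = C.g i'} = Set.range C.g := by
      ext x
      constructor
      · rintro ⟨i, _, hi⟩
        exact ⟨i, hi.symm⟩
      · rintro ⟨i, hi⟩
        exact ⟨i, trivial, hi.symm⟩
    have h2 := lin_good (Φ := bitFrame a b h) (T := T (2 * Δ + 3)) (X := c ^ (Δ + 1) * (κ * ϑ))
      (hT1 _) (by positivity) (s := s) (g := C.g) (p := fun _ => True) (Θ := Θ) (f := f')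
      (fun j => by
        refine (hvar j).mono (hTm (by omega)) ?_
        exact le_mul_of_one_le_left (by positivity) (one_le_pow₀ hc1)) (fun i' _ => by
        refine (key (C.depth i') (C.depth_le i') i' rfl).1.mono (hTm ?_) ?_
        · have := C.depth_le i'
          omega
        · refine mul_le_mul_of_nonneg_right ?_ (by positivity)
          exact pow_le_pow_right₀ hc1 (Nat.succ_le_succ (C.depth_le i')))
      (by rw [h1]; exact hf)
    refine h2.mono le_rfl ?_
    exact mul_le_mul_of_nonneg_right (by linarith) (by positivity)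
  set X : ℝ := ((n : ℝ) + s + 1) * (c ^ (Δ + 1) * (κ * ϑ)) with hX
  have hX0 : 0 ≤ X := by positivity
  have hϑX : ϑ ≤ X := by
    have h1 : (1:ℝ) ≤ ((n : ℝ) + s + 1) * (c ^ (Δ + 1) * κ) :=
      one_le_mul_of_one_le_of_one_le (by linarith)
        (one_le_mul_of_one_le_of_one_le (one_le_pow₀ hc1) hκ1)
    rw [hX]
    nlinarith
  -- the logarithmic derivative
  let i₀ : Fin b ⊕ Fin a := Sum.inr ⟨0, ha⟩
  have hc0 : ((sub F t pos i x f').map (eval A)).eval₂ (algebraMap F K) ζ ≠ 0 := by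
    refine eval₂_ne_zero ?_ g₀
    rw [← hP, hQ, Polynomial.map_mul, Polynomial.map_pow, Polynomial.map_sub, Polynomial.map_X,
      Polynomial.map_C]
    refine mul_ne_zero (pow_ne_zero _ (Polynomial.X_sub_C_ne_zero _)) ?_
    intro h0
    apply hA1
    have h1 : eval A (Q.eval G') = (Q.map (eval A)).eval (eval A G') := by
      rw [Polynomial.eval_map, Polynomial.eval₂_at_apply]
    rw [h1, h0, Polynomial.eval_zero]
  obtain ⟨Ld, hLd⟩ := exists_LD i₀ (Θ f') hc0 (hΘ0 f')
  obtain ⟨z, hz0, hz1, hzs, hzT⟩ := hscale (2 * Δ + 3) (by omega)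
  set B : Finset (Fin b ⊕ Fin a) := Finset.univ.erase i₀ with hB
  have hBi : i₀ ∉ B := Finset.notMem_erase _ _
  have hBins : insert i₀ B = Finset.univ := Finset.insert_erase (Finset.mem_univ _)
  have hBc : B.card = a + b - 1 := by
    rw [hB, Finset.card_erase_of_mem (Finset.mem_univ _), Finset.card_univ, hcard]
  have hbd := LD.bd (triv_bitFrame a b h) hz0 hz1 hX0 (scale_of_num hzs) hout hc0 (hΘ0 f') hLd
    B.card B rfl hBi
  rw [hBins] at hbd
  have hmax : max (z ^ (Finset.univ : Finset (Fin b ⊕ Fin a)).card) X = X := by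
    refine max_eq_right ?_
    rw [Finset.card_univ, hcard]
    exact ((pow_le_pow_of_le_one hz0 hz1 hTK).trans hzT).trans hϑX
  have hwt : (bitFrame a b h).wt Finset.univ = 2 ^ (b * (a * h)) := by
    rw [wt_bitFrame]
    have h4 : lef (Finset.univ : Finset (Fin b ⊕ Fin a)) = b := by
      rw [lef, Finset.preimage_univ, Finset.card_univ, Fintype.card_fin]
    have h5 : rig (Finset.univ : Finset (Fin b ⊕ Fin a)) = a := by
      rw [rig, Finset.preimage_univ, Finset.card_univ, Fintype.card_fin]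
    rw [h4, h5]
    have h6 : a * h * b + b * h * a = 2 * (b * (a * h)) := by ring
    rw [h6, pow_mul, Real.sq_sqrt (by norm_num)]
  have hrkL : HasRkR (Ld B) (2 ^ ((a + b) ^ 2) * X * 2 ^ (b * (a * h))) := by
    refine hbd.2.mono ?_
    rw [hmax, hwt, hBc]
    have h1 : (2:ℝ) ^ ((a + b - 1) ^ 2) ≤ 2 ^ ((a + b) ^ 2) :=
      pow_le_pow_right₀ (by norm_num) (Nat.pow_le_pow_left (Nat.sub_le _ _) 2)
    gcongr
  -- the root
  set ψ : SF (Fin b ⊕ Fin a) ((Ed a b h → Bool) → (Ed a b h → Bool) → F) :=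
    thetaHom F A Lc G' - SF.cst (fun _ _ => g₀) with hψ
  have hψ0 : ψ ∅ = 0 := by
    rw [hψ, SF.sub_def, thetaHom_empty, SF.cst_apply, if_pos rfl]
    funext u v
    show algebraMap F F (eval A G') - g₀ = 0
    rw [Algebra.algebraMap_self_apply, sub_self]
  set ζO : PowerSeries F := PowerSeries.C g₀ + PowerSeries.X with hζO
  have hζO' : psHom F ζO = ζ := by
    rw [hζO, map_add]
    have h1 : psHom F (PowerSeries.C g₀) = HahnSeries.C g₀ := HahnSeries.ofPowerSeries_C g₀
    have h2 : psHom F PowerSeries.X = tau F := HahnSeries.ofPowerSeries_X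
    rw [h1, h2]
  have hPsf : Θ f' = (SF.cst (fun _ _ => tau F) - SF.mapR (SF.push HahnSeries.C) ψ) ^ r *
      SF.mapR (SF.push (HahnSeries.ofPowerSeries ℤ F)) (zHom (PowerSeries F) A Lc ζO Q) := by
    rw [hΘ, ← hP, hQ, map_mul, map_pow, map_sub, zHom_X, zHom_C]
    have h1 : SF.mapR (SF.push (HahnSeries.ofPowerSeries ℤ F))
        (zHom (PowerSeries F) A Lc ζO Q) = zHom K A Lc ζ Q := by
      rw [← hζO', ← zHom_map A Lc ζO (psHom F) Q]
      rfl
    have h2 : SF.mapR (SF.push HahnSeries.C) (thetaHom F A Lc G') = thetaHom K A Lc G' := by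
      rw [← thetaHom_map A Lc (Algebra.ofId F K) G']
      have h3 : (HahnSeries.C : F →+* K) = ((Algebra.ofId F K : F →ₐ[F] K) : F →+* K) := by
        refine RingHom.ext fun r => ?_
        exact (algMap_eq r).symm
      rw [h3]
    rw [h1, hψ, map_sub, h2, SF.mapR_cst]
    congr 2
    have h3 : (SF.cst (fun _ _ => ζ) : SF (Fin b ⊕ Fin a)
        ((Ed a b h → Bool) → (Ed a b h → Bool) → K)) =
        SF.cst (fun _ _ => tau F) + SF.cst (SF.push HahnSeries.C (fun _ _ => g₀)) := by
      rw [← map_add]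
      congr 1
      funext u v
      show ζ = tau F + HahnSeries.C g₀
      rw [hζ, add_comm]
    rw [h3]
    ring
  have hroot := root_rk ψ hψ0 i₀ (zHom (PowerSeries F) A Lc ζO Q) (fun u v => by
    rw [zHom_empty]
    refine isUnit_eval₂ ?_
    intro h0
    apply hA1
    have h1 : eval A (Q.eval G') = (Q.map (eval A)).eval (eval A G') := by
      rw [Polynomial.eval_map, Polynomial.eval₂_at_apply]
    rw [h1]
    exact h0) r hr0 (Θ f') Ld hLd hPsf B hBi hrkL
  rw [hBins] at hroot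
  obtain ⟨ρ, hρ, hρ'⟩ := hroot
  have hid : HasRk (fun u v : Ed a b h → Bool => if u = v then (1 : F) else 0) ρ := by
    refine hρ.congr fun u v => ?_
    have hne : (Finset.univ : Finset (Fin b ⊕ Fin a)) ≠ ∅ :=
      Finset.ne_empty_of_mem (Finset.mem_univ i₀)
    rw [hψ, SF.sub_def, SF.cst_apply, if_neg hne, sub_zero, hG', hLc, thetaHom_G_univ]
  have hle := card_le_of_id hid
  have hcE : Fintype.card (Ed a b h → Bool) = 2 ^ (b * (a * h)) := by
    rw [Fintype.card_fun, Fintype.card_bool, Fintype.card_prod, Fintype.card_prod,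
      Fintype.card_fin, Fintype.card_fin, Fintype.card_fin]
  rw [hcE] at hle
  have hleR : (2:ℝ) ^ (b * (a * h)) ≤ ((a:ℝ) + b) *
      (2 ^ ((a + b) ^ 2) * X * 2 ^ (b * (a * h))) := by
    have h1 : ((2 ^ (b * (a * h)) : ℕ) : ℝ) ≤ ρ := by exact_mod_cast hle
    rw [Nat.cast_pow, Nat.cast_ofNat] at h1
    refine (h1.trans hρ').trans (le_of_eq ?_)
    congr 1
    have h2 : B.card + 1 = a + b := by rw [hBc]; omega
    have h3 : ((B.card + 1 : ℕ) : ℝ) = ((a + b : ℕ) : ℝ) := by rw [h2]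
    push_cast at h3
    exact h3
  have hpos2 : (0:ℝ) < 2 ^ (b * (a * h)) := by positivity
  have h5 : (1:ℝ) ≤ ((a:ℝ) + b) * (2 ^ ((a + b) ^ 2) * X) := by
    by_contra hcon
    rw [not_le] at hcon
    have h6 : ((a:ℝ) + b) * (2 ^ ((a + b) ^ 2) * X * 2 ^ (b * (a * h))) =
        (((a:ℝ) + b) * (2 ^ ((a + b) ^ 2) * X)) * 2 ^ (b * (a * h)) := by ring
    rw [h6] at hleR
    nlinarith
  have h7 : (0:ℝ) < 2 ^ (a * h * L) := by positivity
  have h8 : ((a:ℝ) + b) * (2 ^ ((a + b) ^ 2) * X) = (((a:ℝ) + b) * 2 ^ ((a + b) ^ 2) *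
      (((n:ℝ) + s + 1) * (c ^ (Δ + 1) * κ))) / 2 ^ (a * h * L) := by
    rw [hX, hϑ]
    field_simp
  rw [h8, le_div_iff₀ h7, one_mul] at h5
  exact h5

end Pool.Agent.Y531.Hit
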