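import Pool.Agent.W942.Rk

/-!
# The rank of a coefficient of a matrix of power series
-/

set_option autoImplicit false
set_option linter.unusedSectionVars false

namespace Pool.Agent.Y531

open Finset Pool.Agent.W942

/-- Elimination of one entry. -/
theorem hasRk_elim {K U V : Type*} [Field K] {M : U → V → K} {r : ℕ} (h : HasRk M (r + 1))
    (u₀ : U) (v₀ : V) (h0 : M u₀ v₀ ≠ 0) :
    HasRk (fun u v => M u v - M u v₀ * (M u₀ v₀)⁻¹ * M u₀ v) r := by
  obtain ⟨f, g, hfg⟩ := h
  have hx : ∃ k, f k u₀ ≠ 0 := by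
    by_contra hcon
    push Not at hcon
    apply h0
    rw [hfg]
    exact Finset.sum_eq_zero fun i _ => by rw [hcon i, zero_mul]
  obtain ⟨k, hk⟩ := hx
  set g' : Fin (r + 1) → V → K := fun i v => g i v - g i v₀ * (M u₀ v₀)⁻¹ * M u₀ v with hg'
  have h1 : ∀ u v, M u v - M u v₀ * (M u₀ v₀)⁻¹ * M u₀ v = ∑ i, f i u * g' i v := by
    intro u v
    rw [hfg u v, hfg u v₀, Finset.sum_mul, Finset.sum_mul, ← Finset.sum_sub_distrib]
    refine Finset.sum_congr rfl fun i _ => ?_
    rw [hg']; ring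
  have h2 : ∀ v, ∑ i, f i u₀ * g' i v = 0 := by
    intro v
    rw [← h1, mul_inv_cancel₀ h0, one_mul, sub_self]
  refine ⟨fun i u => f (k.succAbove i) u - f k u * (f k u₀)⁻¹ * f (k.succAbove i) u₀,
    fun i v => g' (k.succAbove i) v, fun u v => ?_⟩
  show M u v - M u v₀ * (M u₀ v₀)⁻¹ * M u₀ v = ∑ i, (f (k.succAbove i) u -
    f k u * (f k u₀)⁻¹ * f (k.succAbove i) u₀) * g' (k.succAbove i) v
  rw [h1, Fin.sum_univ_succAbove _ k]
  have h3 := h2 v
  rw [Fin.sum_univ_succAbove _ k] at h3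
  have h4 : g' k v = -((f k u₀)⁻¹ * ∑ i, f (k.succAbove i) u₀ * g' (k.succAbove i) v) := by
    have h5 : f k u₀ * g' k v = -∑ i, f (k.succAbove i) u₀ * g' (k.succAbove i) v := by
      linear_combination h3
    have h6 : g' k v = (f k u₀)⁻¹ * (f k u₀ * g' k v) := by
      rw [← mul_assoc, inv_mul_cancel₀ hk, one_mul]
    rw [h6, h5]; ring
  rw [h4]
  have h7 : f k u * -((f k u₀)⁻¹ * ∑ i, f (k.succAbove i) u₀ * g' (k.succAbove i) v) =
      ∑ i, -(f k u * (f k u₀)⁻¹ * f (k.succAbove i) u₀ * g' (k.succAbove i) v) := by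
    rw [Finset.mul_sum, mul_neg, Finset.mul_sum, ← Finset.sum_neg_distrib]
    exact Finset.sum_congr rfl fun i _ => by ring
  rw [h7, ← Finset.sum_add_distrib]
  exact Finset.sum_congr rfl fun i _ => by ring

section series
variable {F U V : Type*} [Field F]

theorem exists_min_dvd (N : U → V → PowerSeries F) (h : ∃ u v, N u v ≠ 0) :
    ∃ u₀ v₀, N u₀ v₀ ≠ 0 ∧ ∀ u v, N u₀ v₀ ∣ N u v := by
  classical
  let S : Set ℕ := {k | ∃ u v, PowerSeries.coeff k (N u v) ≠ 0}
  have hS : S.Nonempty := by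
    obtain ⟨u, v, huv⟩ := h
    obtain ⟨k, hk⟩ : ∃ k, PowerSeries.coeff k (N u v) ≠ 0 := by
      by_contra hcon
      push Not at hcon
      exact huv (PowerSeries.ext fun k => by rw [hcon k, map_zero])
    exact ⟨k, u, v, hk⟩
  obtain ⟨u₀, v₀, hk⟩ := Nat.sInf_mem hS
  set k := sInf S with hkdef
  have hlow : ∀ u v j, j < k → PowerSeries.coeff j (N u v) = 0 := by
    intro u v j hj
    by_contra hcon
    exact absurd (Nat.sInf_le (show j ∈ S from ⟨u, v, hcon⟩)) (not_le.2 hj)
  have h0 : N u₀ v₀ ≠ 0 := by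
    intro h1
    rw [h1, map_zero] at hk
    exact hk rfl
  refine ⟨u₀, v₀, h0, fun u v => ?_⟩
  obtain ⟨x, hx⟩ := PowerSeries.X_pow_dvd_iff.2 (hlow u₀ v₀)
  obtain ⟨y, hy⟩ := PowerSeries.X_pow_dvd_iff.2 (hlow u v)
  have hxu : IsUnit x := by
    rw [PowerSeries.isUnit_iff_constantCoeff, isUnit_iff_ne_zero]
    intro h1
    apply hk
    rw [hx, PowerSeries.coeff_X_pow_mul', if_pos le_rfl, Nat.sub_self,
      PowerSeries.coeff_zero_eq_constantCoeff_apply, h1]
  rw [hx, hy]
  obtain ⟨x', hx'⟩ := hxu.exists_right_inv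
  exact ⟨x' * y, by rw [mul_assoc, ← mul_assoc x, hx', one_mul]⟩

/-- A factorisation over the field of Laurent series can be made integral. -/
theorem int_factor {K : Type*} [Field K] (φ : PowerSeries F →+* K) (hφ : Function.Injective φ) :
    ∀ (r : ℕ) (N : U → V → PowerSeries F), HasRk (fun u v => φ (N u v)) r →
      ∃ (a : Fin r → U → PowerSeries F) (b : Fin r → V → PowerSeries F),
        ∀ u v, N u v = ∑ i, a i u * b i v := by
  intro r
  induction r with
  | zero =>
    rintro N ⟨f, g, h⟩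
    refine ⟨fun i => i.elim0, fun i => i.elim0, fun u v => ?_⟩
    apply hφ
    have h1 := h u v
    simp only [Finset.univ_eq_empty, Finset.sum_empty] at h1
    rw [h1]
    simp
  | succ r ih =>
    intro N hN
    by_cases h0 : ∃ u v, N u v ≠ 0
    · obtain ⟨u₀, v₀, h1, h2⟩ := exists_min_dvd N h0
      choose α hα using fun u => h2 u v₀
      have h3 : HasRk (fun u v => φ (N u v - α u * N u₀ v)) r := by
        have h4 := hasRk_elim hN u₀ v₀ (fun h => h1 (hφ (by rw [h, map_zero])))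
        refine h4.congr fun u v => ?_
        have h5 : φ (N u v₀) = φ (N u₀ v₀) * φ (α u) := by rw [← map_mul, ← hα]
        have h6 : φ (N u₀ v₀) ≠ 0 := fun h => h1 (hφ (by rw [h, map_zero]))
        rw [map_sub, map_mul, h5]
        field_simp
      obtain ⟨a, b, hab⟩ := ih _ h3
      refine ⟨Fin.cons α a, Fin.cons (fun v => N u₀ v) b, fun u v => ?_⟩
      rw [Fin.sum_univ_succ, Fin.cons_zero, Fin.cons_zero]
      simp only [Fin.cons_succ]
      rw [← hab u v]
      ring
    · push Not at h0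
      exact ⟨fun _ _ => 0, fun _ _ => 0, fun u v => by rw [h0 u v]; simp⟩

/-- **The rank of a coefficient.** -/
theorem coeff_rk {K : Type*} [Field K] (φ : PowerSeries F →+* K) (hφ : Function.Injective φ)
    {r : ℕ} {N : U → V → PowerSeries F} (h : HasRk (fun u v => φ (N u v)) r) (k : ℕ) :
    HasRk (fun u v => PowerSeries.coeff k (N u v)) ((k + 1) * r) := by
  classical
  obtain ⟨a, b, hab⟩ := int_factor φ hφ r N h
  have h1 := HasRk.sum (K := F) (U := U) (V := V) (Finset.HasAntidiagonal.antidiagonal k)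
    (M := fun (p : ℕ × ℕ) u v => ∑ i, PowerSeries.coeff p.1 (a i u) * PowerSeries.coeff p.2 (b i v))
    (r := fun _ => r) (fun p _ => ⟨fun i u => PowerSeries.coeff p.1 (a i u),
      fun i v => PowerSeries.coeff p.2 (b i v), fun u v => rfl⟩)
  rw [Finset.sum_const, Finset.Nat.card_antidiagonal, smul_eq_mul] at h1
  refine h1.congr fun u v => ?_
  rw [hab, map_sum, Finset.sum_comm]
  refine Finset.sum_congr rfl fun i _ => ?_
  rw [PowerSeries.coeff_mul]

end series

end Pool.Agent.Y531
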