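import Pool.Agent.Y531.Prod
import Pool.Agent.Y531.Hit.Res

/-!
# Roots of good functions are good, whatever their multiplicity
-/

set_option autoImplicit false
set_option linter.unusedSectionVars false

namespace Pool.Agent.Y531

open Finset Pool.Agent.W942

namespace SF

variable {ι R R' : Type*} [DecidableEq ι] [CommRing R] [CommRing R']

/-- Functoriality, as a function. -/
def mapF (φ : R →+* R') (f : SF ι R) : SF ι R' := fun S => φ (f S)

theorem mapF_apply (φ : R →+* R') (f : SF ι R) (S : Finset ι) : mapF φ f S = φ (f S) := rfl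

/-- Functoriality. -/
def mapR (φ : R →+* R') : SF ι R →+* SF ι R' where
  toFun f := mapF φ f
  map_one' := by
    refine ext' fun S => ?_
    rw [mapF_apply, one_def, one_def]
    by_cases h : S = ∅ <;> simp [h]
  map_mul' f g := by
    refine ext' fun S => ?_
    rw [mapF_apply, mul_def, mul_def, map_sum]
    exact Finset.sum_congr rfl fun T _ => map_mul φ _ _
  map_zero' := by
    refine ext' fun S => ?_
    rw [mapF_apply, zero_def, zero_def, map_zero]
  map_add' f g := by
    refine ext' fun S => ?_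
    rw [mapF_apply, add_def, add_def, map_add]
    rfl

@[simp] theorem mapR_apply (φ : R →+* R') (f : SF ι R) (S : Finset ι) :
    mapR φ f S = φ (f S) := rfl

/-- The value at a pair. -/
def pe {U V : Type*} (u : U) (v : V) : SF ι (U → V → R) →+* SF ι R :=
  mapR ((Pi.evalRingHom (fun _ : V => R) v).comp (Pi.evalRingHom (fun _ : U => V → R) u))

@[simp] theorem pe_apply {U V : Type*} (u : U) (v : V) (f : SF ι (U → V → R)) (S : Finset ι) :
    pe u v f S = f S u v := rfl

/-- A ring homomorphism applied to all values of a function of two arguments. -/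
def push {U V : Type*} (φ : R →+* R') : (U → V → R) →+* (U → V → R') :=
  (φ.compLeft V).compLeft U

@[simp] theorem push_apply {U V : Type*} (φ : R →+* R') (f : U → V → R) (u : U) (v : V) :
    push φ f u v = φ (f u v) := rfl

theorem pe_mapR_push {U V : Type*} (φ : R →+* R') (f : SF ι (U → V → R)) (u : U) (v : V) :
    pe u v (mapR (push φ) f) = mapR φ (pe u v f) := rfl

theorem pe_cst {U V : Type*} (r : U → V → R) (u : U) (v : V) :
    pe (ι := ι) u v (cst r) = cst (r u v) := by
  refine ext' fun S => ?_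
  rw [pe_apply, cst_apply, cst_apply]
  by_cases h : S = ∅ <;> simp [h]

theorem mapR_dd (φ : R →+* R') (i : ι) (f : SF ι R) : mapR φ (dd i f) = dd i (mapR φ f) := by
  refine ext' fun B => ?_
  by_cases h : i ∈ B
  · rw [mapR_apply, dd_apply_of_mem h, dd_apply_of_mem h, map_zero]
  · rw [mapR_apply, dd_apply_of_notMem h, dd_apply_of_notMem h, mapR_apply]

theorem mapR_sg (φ : R →+* R') (i : ι) (f : SF ι R) : mapR φ (sg i f) = sg i (mapR φ f) := by
  refine ext' fun B => ?_
  by_cases h : i ∈ B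
  · rw [mapR_apply, sg_apply_of_mem h, sg_apply_of_mem h, map_zero]
  · rw [mapR_apply, sg_apply_of_notMem h, sg_apply_of_notMem h, mapR_apply]

theorem mapR_cst (φ : R →+* R') (r : R) : mapR (ι := ι) φ (cst r) = cst (φ r) := by
  refine ext' fun B => ?_
  rw [mapR_apply, cst_apply, cst_apply]
  by_cases h : B = ∅ <;> simp [h]

theorem mapR_sgl (φ : R →+* R') (S : Finset ι) (r : R) : mapR φ (sgl S r) = sgl S (φ r) := by
  refine ext' fun B => ?_
  rw [mapR_apply, sgl_apply, sgl_apply]
  by_cases h : B = S <;> simp [h]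

end SF

variable {ι F : Type*} [DecidableEq ι] [Field F]

/-- The uniformiser. -/
noncomputable def tau (F : Type*) [Field F] : LaurentSeries F := HahnSeries.single 1 1

theorem tau_ne_zero : tau F ≠ 0 := by
  rw [tau]
  exact HahnSeries.single_ne_zero one_ne_zero

theorem coeff_mul_tau (x : LaurentSeries F) (k : ℤ) :
    HahnSeries.coeff (x * tau F) (k + 1) = HahnSeries.coeff x k := by
  rw [mul_comm, tau, HahnSeries.coeff_single_mul_add, one_mul]

theorem coeff_mul_C (x : LaurentSeries F) (a : F) (k : ℤ) :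
    HahnSeries.coeff (x * HahnSeries.C a) k = HahnSeries.coeff x k * a := by
  rw [mul_comm, HahnSeries.C_mul_eq_smul, HahnSeries.coeff_smul, smul_eq_mul, mul_comm]

/-- The logarithmic derivative of `τ - ψ`. -/
theorem coeff_LD_tau (ψ : SF ι F) (h0 : ψ ∅ = 0) (i : ι) (Z : SF ι (LaurentSeries F))
    (hZ : SF.dd i (SF.cst (tau F) - SF.mapR HahnSeries.C ψ) =
      Z * SF.sg i (SF.cst (tau F) - SF.mapR HahnSeries.C ψ)) :
    ∀ (n : ℕ) (B : Finset ι), B.card = n → i ∉ B →
      (∀ k : ℤ, 0 ≤ k → HahnSeries.coeff (Z B) k = 0) ∧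
      (∀ k : ℤ, k < -(n + 1) → HahnSeries.coeff (Z B) k = 0) ∧
      HahnSeries.coeff (Z B) (-1) = - ψ (insert i B) := by
  intro n
  induction n using Nat.strong_induction_on with
  | _ n ih =>
    intro B hB hi
    have h1 : Z B * tau F = HahnSeries.C (-(ψ (insert i B))) +
        ∑ C ∈ B.powerset.erase B, Z C * HahnSeries.C (ψ (B \ C)) := by
      have h2 : SF.dd i (SF.cst (tau F) - SF.mapR HahnSeries.C ψ) B =
          (Z * SF.sg i (SF.cst (tau F) - SF.mapR HahnSeries.C ψ) : SF ι (LaurentSeries F)) B := by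
        rw [hZ]
      rw [SF.dd_apply_of_notMem hi, SF.sub_def, SF.cst_apply, if_neg (Finset.insert_ne_empty _ _),
        SF.mapR_apply, SF.mul_def, ← Finset.add_sum_erase _ _ (Finset.mem_powerset_self B),
        Finset.sdiff_self, SF.sg_apply_of_notMem (Finset.notMem_empty i), SF.sub_def,
        SF.cst_apply, if_pos rfl, SF.mapR_apply, h0, map_zero, sub_zero, zero_sub] at h2
      have h3 : ∑ C ∈ B.powerset.erase B, Z C *
          (SF.sg i (SF.cst (tau F) - SF.mapR HahnSeries.C ψ)) (B \ C) =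
          -∑ C ∈ B.powerset.erase B, Z C * HahnSeries.C (ψ (B \ C)) := by
        rw [← Finset.sum_neg_distrib]
        refine Finset.sum_congr rfl fun C hC => ?_
        rw [Finset.mem_erase, Finset.mem_powerset] at hC
        have hne : B \ C ≠ ∅ := by
          intro h
          exact hC.1 (Finset.Subset.antisymm hC.2 (Finset.sdiff_eq_empty_iff_subset.1 h))
        rw [SF.sg_apply_of_notMem (fun h => hi (Finset.mem_sdiff.1 h).1), SF.sub_def,
          SF.cst_apply, if_neg hne, SF.mapR_apply, zero_sub, mul_neg]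
      rw [h3] at h2
      rw [map_neg]
      linear_combination -h2
    have h2 : ∀ k : ℤ, HahnSeries.coeff (Z B) k =
        HahnSeries.coeff (HahnSeries.C (-(ψ (insert i B))) : LaurentSeries F) (k + 1) +
        ∑ C ∈ B.powerset.erase B, HahnSeries.coeff (Z C) (k + 1) * ψ (B \ C) := by
      intro k
      rw [← coeff_mul_tau, h1, HahnSeries.coeff_add, HahnSeries.coeff_sum]
      simp only [coeff_mul_C]
    have h3 : ∀ C ∈ B.powerset.erase B, C.card < n ∧ i ∉ C := by
      intro C hC
      rw [Finset.mem_erase, Finset.mem_powerset] at hC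
      refine ⟨?_, fun h => hi (hC.2 h)⟩
      rw [← hB]
      exact Finset.card_lt_card (Finset.ssubset_iff_subset_ne.2 ⟨hC.2, hC.1⟩)
    have h4 : ∀ k : ℤ, k ≠ 0 →
        HahnSeries.coeff (HahnSeries.C (-(ψ (insert i B))) : LaurentSeries F) k = 0 := by
      intro k hk
      rw [HahnSeries.C_apply, HahnSeries.coeff_single_of_ne hk]
    refine ⟨fun k hk => ?_, fun k hk => ?_, ?_⟩
    · rw [h2, h4 _ (by omega), zero_add]
      refine Finset.sum_eq_zero fun C hC => ?_
      rw [(ih C.card (h3 C hC).1 C rfl (h3 C hC).2).1 _ (by omega), zero_mul]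
    · rw [h2, h4 _ (by omega), zero_add]
      refine Finset.sum_eq_zero fun C hC => ?_
      have := (h3 C hC).1
      rw [(ih C.card (h3 C hC).1 C rfl (h3 C hC).2).2.1 _ (by omega), zero_mul]
    · rw [h2]
      have h5 : ∑ C ∈ B.powerset.erase B, HahnSeries.coeff (Z C) (-1 + 1) * ψ (B \ C) = 0 := by
        refine Finset.sum_eq_zero fun C hC => ?_
        rw [(ih C.card (h3 C hC).1 C rfl (h3 C hC).2).1 _ (by omega), zero_mul]
      rw [h5, add_zero, HahnSeries.C_apply]
      simp

theorem exists_LD' {R : Type*} [CommRing R] [Fintype ι] (i : ι) (f : SF ι R)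
    (hf : IsUnit (f ∅)) : ∃ L, SF.dd i f = L * SF.sg i f := by
  have h1 : IsUnit (SF.sg i f) := by
    apply SF.isUnit_of_apply_empty
    rw [SF.sg_apply_of_notMem (Finset.notMem_empty i)]
    exact hf
  obtain ⟨w, hw⟩ := h1.exists_right_inv
  exact ⟨SF.dd i f * w, by rw [mul_assoc, mul_comm w, hw, mul_one]⟩

theorem LD'_mul {R : Type*} [CommRing R] {i : ι} {f g L M : SF ι R}
    (hf : SF.dd i f = L * SF.sg i f) (hg : SF.dd i g = M * SF.sg i g) :
    SF.dd i (f * g) = (L + M) * SF.sg i (f * g) := by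
  rw [SF.dd_mul, SF.sg_mul, hf, hg]
  ring

theorem LD'_pow {R : Type*} [CommRing R] {i : ι} {f L : SF ι R}
    (hf : SF.dd i f = L * SF.sg i f) (r : ℕ) :
    SF.dd i (f ^ r) = ((r : SF ι R) * L) * SF.sg i (f ^ r) := by
  induction r with
  | zero => rw [pow_zero, Nat.cast_zero, zero_mul, zero_mul, SF.dd_one]
  | succ r ih =>
    rw [pow_succ, Nat.cast_succ, LD'_mul ih hf]
    ring

/-- The coefficients of the logarithmic derivative near a root of multiplicity `r`. -/
theorem coeff_LD [Fintype ι] (φ : PowerSeries F →+* LaurentSeries F)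
    (hφ : φ = HahnSeries.ofPowerSeries ℤ F) (ψ : SF ι F) (h0 : ψ ∅ = 0) (i : ι)
    (Q : SF ι (PowerSeries F)) (hQ : IsUnit (Q ∅)) (r : ℕ) (L : SF ι (LaurentSeries F))
    (hL : SF.dd i ((SF.cst (tau F) - SF.mapR HahnSeries.C ψ) ^ r * SF.mapR φ Q) =
      L * SF.sg i ((SF.cst (tau F) - SF.mapR HahnSeries.C ψ) ^ r * SF.mapR φ Q))
    (B : Finset ι) (hi : i ∉ B) :
    (∀ k : ℤ, k < -(B.card + 1) → HahnSeries.coeff (L B) k = 0) ∧
      HahnSeries.coeff (L B) (-1) = -(r * ψ (insert i B)) := by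
  obtain ⟨Z, hZ⟩ := exists_LD' i (SF.cst (tau F) - SF.mapR HahnSeries.C ψ) (by
    rw [SF.sub_def, SF.cst_apply, if_pos rfl, SF.mapR_apply, h0, map_zero, sub_zero]
    exact isUnit_iff_ne_zero.2 tau_ne_zero)
  obtain ⟨E, hE⟩ := exists_LD' i Q hQ
  have hE' : SF.dd i (SF.mapR φ Q) = SF.mapR φ E * SF.sg i (SF.mapR φ Q) := by
    rw [← SF.mapR_dd, ← SF.mapR_sg, hE, map_mul]
  have h1 := LD'_mul (LD'_pow hZ r) hE'
  have hu : IsUnit (SF.sg i ((SF.cst (tau F) - SF.mapR HahnSeries.C ψ) ^ r * SF.mapR φ Q)) := by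
    apply SF.isUnit_of_apply_empty
    rw [SF.sg_apply_of_notMem (Finset.notMem_empty i)]
    have h2 : ((SF.cst (tau F) - SF.mapR HahnSeries.C ψ) ^ r * SF.mapR φ Q :
        SF ι (LaurentSeries F)) ∅ = (tau F) ^ r * φ (Q ∅) := by
      have h3 := map_mul (SF.ev0 (ι := ι) (R := LaurentSeries F))
        ((SF.cst (tau F) - SF.mapR HahnSeries.C ψ) ^ r) (SF.mapR φ Q)
      rw [map_pow, SF.ev0_apply, SF.ev0_apply, SF.ev0_apply, SF.sub_def, SF.cst_apply, if_pos rfl,
        SF.mapR_apply, h0, map_zero, sub_zero, SF.mapR_apply] at h3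
      exact h3
    rw [h2]
    exact ((isUnit_iff_ne_zero.2 tau_ne_zero).pow r).mul (hQ.map φ)
  have h2 : L = (r : SF ι (LaurentSeries F)) * Z + SF.mapR φ E := by
    have h3 := hL.symm.trans h1
    exact hu.mul_right_cancel h3
  have hr : ∀ C, ((r : SF ι (LaurentSeries F)) * Z) C = (r : LaurentSeries F) * Z C := by
    intro C
    have h3 : (r : SF ι (LaurentSeries F)) = SF.cst (r : LaurentSeries F) := by
      rw [map_natCast]
    rw [h3, SF.cst_mul_apply]
  have hr' : ∀ k, HahnSeries.coeff ((r : LaurentSeries F) * Z B) k =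
      r * HahnSeries.coeff (Z B) k := by
    intro k
    have h3 : (r : LaurentSeries F) = HahnSeries.C (r : F) := by rw [map_natCast]
    rw [h3, mul_comm, coeff_mul_C, mul_comm]
  obtain ⟨h4, h5, h6⟩ := coeff_LD_tau ψ h0 i Z hZ B.card B rfl hi
  have h7 : ∀ k : ℤ, k < 0 → HahnSeries.coeff (SF.mapR φ E B) k = 0 := by
    intro k hk
    rw [SF.mapR_apply, hφ]
    have h8 := PowerSeries.coeff_coe (E B) k
    rw [if_pos hk] at h8
    exact h8
  constructor
  · intro k hk
    rw [h2, SF.add_def, HahnSeries.coeff_add, hr, hr', h5 k hk, h7 k (by omega)]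
    ring
  · rw [h2, SF.add_def, HahnSeries.coeff_add, hr, hr', h6, h7 _ (by omega)]
    ring

/-- **Roots.** The value of `ψ` at `insert i B` has small rank if that of the logarithmic
derivative of `(τ - ψ)^r Q` at `B` has. -/
theorem root_rk [Fintype ι] [CharZero F] {U V : Type*} (ψ : SF ι (U → V → F)) (h0 : ψ ∅ = 0)
    (i : ι) (Q : SF ι (U → V → PowerSeries F)) (hQ : ∀ u v, IsUnit (Q ∅ u v)) (r : ℕ) (hr : r ≠ 0)
    (P L : SF ι (U → V → LaurentSeries F)) (hL : SF.dd i P = L * SF.sg i P)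
    (hP' : P = (SF.cst (fun _ _ => tau F) - SF.mapR (SF.push HahnSeries.C) ψ) ^ r *
        SF.mapR (SF.push (HahnSeries.ofPowerSeries ℤ F)) Q)
    (B : Finset ι) (hi : i ∉ B) {ρ : ℝ} (hρ : HasRkR (L B) ρ) :
    HasRkR (ψ (insert i B)) ((B.card + 1) * ρ) := by
  have hP : ∀ u v, SF.pe u v P = (SF.cst (tau F) - SF.mapR HahnSeries.C (SF.pe u v ψ)) ^ r *
        SF.mapR (HahnSeries.ofPowerSeries ℤ F) (SF.pe u v Q) := by
    intro u v
    rw [hP', map_mul, map_pow, map_sub, SF.pe_mapR_push, SF.pe_mapR_push, SF.pe_cst]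
  -- evaluation at a pair
  have hev : ∀ u v, SF.dd i (SF.pe u v P) = SF.pe u v L * SF.sg i (SF.pe u v P) := by
    intro u v
    have h1 := congrArg (SF.pe u v) hL
    rw [SF.pe, SF.mapR_dd, map_mul, SF.mapR_sg] at h1
    exact h1
  have hc : ∀ u v, (∀ k : ℤ, k < -(B.card + 1) → HahnSeries.coeff (L B u v) k = 0) ∧
      HahnSeries.coeff (L B u v) (-1) = -(r * ψ (insert i B) u v) := by
    intro u v
    have h1 := hev u v
    rw [hP u v] at h1
    exact coeff_LD _ rfl (SF.pe u v ψ) (by rw [SF.pe_apply, h0]; rfl) i (SF.pe u v Q) (hQ u v) r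
      (SF.pe u v L) h1 B hi
  -- clear the denominator
  have hN : ∀ u v, ∃ N : PowerSeries F, HahnSeries.ofPowerSeries ℤ F N =
      L B u v * (tau F) ^ (B.card + 1) ∧
      PowerSeries.coeff B.card N = -(r * ψ (insert i B) u v) := by
    intro u v
    have h1 : ∀ (x : LaurentSeries F) (m : ℕ) (k : ℤ),
        HahnSeries.coeff (x * (tau F) ^ m) (k + m) = HahnSeries.coeff x k := by
      intro x m
      induction m with
      | zero => intro k; rw [pow_zero, mul_one, Nat.cast_zero, add_zero]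
      | succ m ih =>
        intro k
        rw [pow_succ, ← mul_assoc, Nat.cast_succ, ← add_assoc, coeff_mul_tau, ih]
    refine ⟨PowerSeries.mk fun j => HahnSeries.coeff (L B u v * (tau F) ^ (B.card + 1)) j, ?_, ?_⟩
    · ext k
      have h2 := PowerSeries.coeff_coe (PowerSeries.mk fun j : ℕ =>
        HahnSeries.coeff (L B u v * (tau F) ^ (B.card + 1)) j) k
      refine h2.trans ?_
      by_cases hk : k < 0
      · rw [if_pos hk]
        have h3 := h1 (L B u v) (B.card + 1) (k - ((B.card + 1 : ℕ) : ℤ))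
        rw [sub_add_cancel] at h3
        rw [h3, (hc u v).1]
        push_cast
        omega
      · rw [if_neg hk, PowerSeries.coeff_mk]
        congr 1
        omega
    · rw [PowerSeries.coeff_mk]
      have h3 := h1 (L B u v) (B.card + 1) (-1)
      have h4 : (-1 : ℤ) + ((B.card + 1 : ℕ) : ℤ) = (B.card : ℤ) := by push_cast; ring
      rw [h4] at h3
      rw [h3]
      exact (hc u v).2
  choose N hN1 hN2 using hN
  obtain ⟨s, hs, hs'⟩ := hρ
  have h1 : HasRk (fun u v => HahnSeries.ofPowerSeries ℤ F (N u v)) s := by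
    have h2 := hs.mul (HasRk.one_of_mul (M := fun (_ : U) (_ : V) => (tau F) ^ (B.card + 1))
      (fun _ => (tau F) ^ (B.card + 1)) (fun _ => 1) (fun _ _ => by rw [mul_one]))
    rw [mul_one] at h2
    exact h2.congr fun u v => hN1 u v
  have h2 := coeff_rk _ (HahnSeries.ofPowerSeries_injective) h1 B.card
  have h3 : HasRk (ψ (insert i B)) ((B.card + 1) * s) := by
    have h4 := h2.mul (HasRk.one_of_mul (M := fun (_ : U) (_ : V) => -((r : F))⁻¹)
      (fun _ => -((r : F))⁻¹) (fun _ => 1) (fun _ _ => by rw [mul_one]))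
    rw [mul_one] at h4
    refine h4.congr fun u v => ?_
    rw [hN2]
    have h5 : (r : F) ≠ 0 := Nat.cast_ne_zero.2 hr
    field_simp
  refine ⟨_, h3, ?_⟩
  push_cast
  gcongr

end Pool.Agent.Y531
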