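import Pool.Agent.Y531.Bits
import Pool.Agent.Y531.Hit.Root
import Pool.Agent.Y531.Hit.Design

/-!
# Expansion of the generator around a point
-/

set_option autoImplicit false
set_option linter.unusedSectionVars false

namespace Pool.Agent.Y531.Hit

open Finset MvPolynomial Pool.Agent.W942 Pool.Agent.Y531

variable {a b h q : ℕ}

/-- The cell which a pair of words determines at a label. -/
def pick (u v : Ed a b h → Bool) : Fin b ⊕ Fin a → Cell a b h :=
  Sum.elim (fun i => cell u (Sum.inl i)) (fun j => cell v (Sum.inr j))

/-- The indicator of a cell. -/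
def ind (R : Type*) [CommRing R] (c : Cell a b h) (u v : Ed a b h → Bool) : R :=
  if pick u v (lab c) = c then 1 else 0

theorem ind_same (R : Type*) [CommRing R] (c : Cell a b h) (u v u' v' : Ed a b h → Bool)
    (hs : (bitFrame a b h).same (lab c) u v u' v') : ind R c u v = ind R c u' v' := by
  have h2 : pick u v (lab c) = pick u' v' (lab c) := by
    rcases c with ⟨i, x⟩ | ⟨j, x⟩
    · have h1 : cell u (Sum.inl i) = cell u' (Sum.inl i) := by
        simp only [cell, Sum.elim_inl]
        congr 2
        funext p
        exact hs (i, p.1, p.2) rfl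
      exact h1
    · have h1 : cell v (Sum.inr j) = cell v' (Sum.inr j) := by
        simp only [cell, Sum.elim_inr]
        congr 2
        funext p
        exact hs (p.1, j, p.2) rfl
      exact h1
  rw [ind, ind, h2]

theorem prod_ind (R : Type*) [CommRing R] (w u v : Ed a b h → Bool) :
    ∏ l, ind R (cell w l) u v = if w = u ∧ w = v then 1 else 0 := by
  classical
  by_cases hw : w = u ∧ w = v
  · obtain ⟨rfl, h2⟩ := hw
    subst h2
    rw [if_pos ⟨rfl, rfl⟩]
    refine Finset.prod_eq_one fun l _ => ?_
    rw [ind, if_pos]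
    rw [lab_cell]
    rcases l with i | j <;> rfl
  · rw [if_neg hw]
    have h1 : ∃ l, pick u v l ≠ cell w l := by
      by_contra hcon
      push Not at hcon
      apply hw
      constructor
      · funext e
        have h2 := hcon (Sum.inl e.1)
        simp only [pick, cell, Sum.elim_inl, Sum.inl.injEq, Prod.mk.injEq, true_and] at h2
        exact (congrFun h2 (e.2.1, e.2.2)).symm
      · funext e
        have h2 := hcon (Sum.inr e.2.1)
        simp only [pick, cell, Sum.elim_inr, Sum.inr.injEq, Prod.mk.injEq, true_and] at h2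
        exact (congrFun h2 (e.1, e.2.2)).symm
    obtain ⟨l, hl⟩ := h1
    refine Finset.prod_eq_zero (Finset.mem_univ l) ?_
    rw [ind, lab_cell, if_neg hl]

variable {F : Type*} [Field F]

/-- The seed variable `(c, s)`, moved in the direction of the label of `c` if `s = L c`. -/
noncomputable def theta (R : Type*) [CommRing R] [Algebra F R] (A : Cell a b h × ZMod q → F)
    (L : Cell a b h → ZMod q) (x : Cell a b h × ZMod q) :
    SF (Fin b ⊕ Fin a) ((Ed a b h → Bool) → (Ed a b h → Bool) → R) := by
  classical
  exact SF.cst (fun _ _ => algebraMap F R (A x)) +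
    if x.2 = L x.1 then SF.sgl {lab x.1} (ind R x.1) else 0

variable {R R' : Type*} [CommRing R] [Algebra F R] [CommRing R'] [Algebra F R']
  (A : Cell a b h × ZMod q → F) (L : Cell a b h → ZMod q)

theorem theta_empty (x : Cell a b h × ZMod q) :
    theta R A L x ∅ = fun _ _ => algebraMap F R (A x) := by
  rw [theta, SF.add_def, SF.cst_apply, if_pos rfl]
  by_cases hx : x.2 = L x.1
  · rw [if_pos hx, SF.sgl_apply, if_neg (Finset.singleton_ne_empty _).symm, add_zero]
  · rw [if_neg hx]
    exact add_zero _

theorem theta_of_ne {x : Cell a b h × ZMod q} (hx : x.2 ≠ L x.1) :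
    theta R A L x = algebraMap F _ (A x) := by
  rw [theta, if_neg hx, add_zero]
  rfl

theorem theta_map (φ : R →ₐ[F] R') (x : Cell a b h × ZMod q) :
    SF.mapR (SF.push (φ : R →+* R')) (theta R A L x) = theta R' A L x := by
  rw [theta, theta, map_add, SF.mapR_cst]
  congr 1
  · congr 1
    funext u v
    rw [SF.push_apply]
    exact φ.commutes _
  · by_cases hx : x.2 = L x.1
    · rw [if_pos hx, if_pos hx, SF.mapR_sgl]
      congr 1
      funext u v
      rw [SF.push_apply, ind, ind]
      by_cases h1 : pick u v (lab x.1) = x.1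
      · rw [if_pos h1, if_pos h1, map_one]
      · rw [if_neg h1, if_neg h1, map_zero]
    · rw [if_neg hx, if_neg hx, map_zero]

/-- The expansion of polynomials in the seed variables. -/
noncomputable def thetaHom (R : Type*) [CommRing R] [Algebra F R] (A : Cell a b h × ZMod q → F)
    (L : Cell a b h → ZMod q) : MvPolynomial (Cell a b h × ZMod q) F →ₐ[F]
      SF (Fin b ⊕ Fin a) ((Ed a b h → Bool) → (Ed a b h → Bool) → R) := aeval (theta R A L)

theorem thetaHom_map (φ : R →ₐ[F] R') (p : MvPolynomial (Cell a b h × ZMod q) F) :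
    SF.mapR (SF.push (φ : R →+* R')) (thetaHom R A L p) = thetaHom R' A L p := by
  have h1 : (SF.mapR (ι := Fin b ⊕ Fin a) (SF.push (U := Ed a b h → Bool)
      (V := Ed a b h → Bool) (φ : R →+* R'))).comp
      (thetaHom R A L : MvPolynomial (Cell a b h × ZMod q) F →+* _) =
      (thetaHom R' A L : MvPolynomial (Cell a b h × ZMod q) F →+* _) := by
    refine MvPolynomial.ringHom_ext (fun r => ?_) (fun x => ?_)
    · rw [RingHom.comp_apply, RingHom.coe_coe, RingHom.coe_coe, thetaHom, thetaHom, algHom_C,
        algHom_C]
      refine (SF.mapR_cst _ _).trans ?_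
      change SF.cst _ = SF.cst _
      congr 1
      funext u v
      rw [SF.push_apply]
      exact φ.commutes _
    · rw [RingHom.comp_apply, RingHom.coe_coe, RingHom.coe_coe, thetaHom, thetaHom, aeval_X,
        aeval_X, theta_map]
  exact congrFun (congrArg DFunLike.coe h1) p

theorem thetaHom_empty (p : MvPolynomial (Cell a b h × ZMod q) F) :
    thetaHom R A L p ∅ = fun _ _ => algebraMap F R (eval A p) := by
  induction p using MvPolynomial.induction_on with
  | C c => rw [thetaHom, algHom_C, SF.algebraMap_apply, if_pos rfl, eval_C]; rfl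
  | add p p' hp hp' =>
    rw [map_add, SF.add_def, hp, hp', map_add, map_add]
    rfl
  | mul_X p k hp =>
    rw [map_mul]
    have h1 : ((thetaHom R A L p) * (thetaHom R A L (X k)) :
      SF (Fin b ⊕ Fin a) ((Ed a b h → Bool) → (Ed a b h → Bool) → R)) ∅ =
      (thetaHom R A L p) ∅ * (thetaHom R A L (X k)) ∅ := map_mul (SF.ev0) _ _
    rw [h1, hp, thetaHom, aeval_X, theta_empty, map_mul, eval_X, map_mul]
    rfl

/-- The top coefficient of a product over all labels. -/
theorem prod_univ_apply {ι : Type*} [Fintype ι] [DecidableEq ι] {S : Type*} [CommRing S]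
    (c r : ι → S) : (∏ l, (SF.cst (c l) + SF.sgl {l} (r l)) : SF ι S) Finset.univ = ∏ l, r l := by
  rw [Finset.prod_add, SF.sum_apply, Finset.sum_eq_single ∅]
  · rw [Finset.prod_empty, one_mul, Finset.sdiff_empty, SF.prod_sgl, SF.sgl_apply, if_pos rfl]
  · intro t _ ht
    rw [← map_prod, SF.cst_mul_apply, SF.prod_sgl, SF.sgl_apply, if_neg, mul_zero]
    intro h
    apply ht
    rw [← Finset.disjoint_self_iff_empty]
    have h4 : Disjoint t (Finset.univ \ t) := Finset.disjoint_sdiff
    rw [← h] at h4
    exact h4.mono_right (Finset.subset_univ t)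
  · intro h
    exact absurd (Finset.empty_mem_powerset _) h

/-- The generator polynomials. -/
noncomputable def G (F : Type*) [Field F] (t : ℕ) (pos : Cell a b h → ZMod q) (j : ℕ) :
    MvPolynomial (Cell a b h × ZMod q) F := gen q t pos X j

/-- **The top coefficient of the generator polynomial along its own graph.** -/
theorem thetaHom_G_univ (t : ℕ) (pos : Cell a b h → ZMod q) (j : ℕ)
    (u v : Ed a b h → Bool) :
    thetaHom R A (line q t pos j) (G F t pos j) Finset.univ u v = if u = v then 1 else 0 := by
  classical
  have h1 : thetaHom R A (line q t pos j) (G F t pos j) =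
      ∑ w : Ed a b h → Bool, ∏ l, (SF.cst (fun _ _ => algebraMap F R
        (A (cell w l, line q t pos j (cell w l)))) + SF.sgl {l} (ind R (cell w l))) := by
    have h2 : thetaHom R A (line q t pos j) (G F t pos j) = wordSum fun c : Cell a b h =>
        thetaHom R A (line q t pos j)
          (X (c, line q t pos j c) : MvPolynomial (Cell a b h × ZMod q) F) :=
      map_wordSum (thetaHom R A (line q t pos j)).toRingHom
        (fun c : Cell a b h => (X (c, line q t pos j c) : MvPolynomial (Cell a b h × ZMod q) F))
    rw [h2, wordSum_eq]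
    refine Finset.sum_congr rfl fun w _ => Finset.prod_congr rfl fun l _ => ?_
    rw [thetaHom, aeval_X, theta, if_pos rfl, lab_cell]
  rw [h1, SF.sum_apply]
  have h3 : ∀ w : Ed a b h → Bool, ((∏ l, (SF.cst (fun _ _ => algebraMap F R
        (A (cell w l, line q t pos j (cell w l)))) + SF.sgl {l} (ind R (cell w l))) :
        SF (Fin b ⊕ Fin a) ((Ed a b h → Bool) → (Ed a b h → Bool) → R)) Finset.univ) =
        fun u v => if w = u ∧ w = v then 1 else 0 := by
    intro w
    rw [prod_univ_apply]
    funext u v
    rw [Finset.prod_apply, Finset.prod_apply]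
    exact prod_ind R w u v
  rw [Finset.sum_congr rfl fun w _ => h3 w, Finset.sum_apply, Finset.sum_apply]
  by_cases huv : u = v
  · subst huv
    rw [if_pos rfl, Finset.sum_eq_single u]
    · rw [if_pos ⟨rfl, rfl⟩]
    · intro w _ hw
      rw [if_neg (fun h => hw h.1)]
    · intro h; exact absurd (Finset.mem_univ u) h
  · rw [if_neg huv]
    refine Finset.sum_eq_zero fun w _ => ?_
    rw [if_neg]
    rintro ⟨rfl, h2⟩
    exact huv h2

/-- The identity matrix has full rank. -/
theorem card_le_of_id {K E : Type*} [Field K] [Fintype E] [DecidableEq E] {r : ℕ}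
    (h : HasRk (fun u v : E => if u = v then (1 : K) else 0) r) : Fintype.card E ≤ r := by
  obtain ⟨f, g, hfg⟩ := h
  have h1 : (1 : Matrix E E K) = (Matrix.of fun u i => f i u) * (Matrix.of fun i v => g i v) := by
    ext u v
    rw [Matrix.one_apply, Matrix.mul_apply]
    exact hfg u v
  have h2 : (1 : Matrix E E K).rank ≤ r := by
    rw [h1]
    refine (Matrix.rank_mul_le_left _ _).trans ?_
    refine (Matrix.rank_le_card_width _).trans ?_
    rw [Fintype.card_fin]
  rwa [Matrix.rank_one] at h2

end Pool.Agent.Y531.Hit
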